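import Pool.Agent.Lib.MP_6bc78b_nt.GP.H3.Defs10
import Pool.Agent.Lib.MP_6bc78b_nt.GP.H35.AreX

/-! Project GP10 (MP_6bc78b_nt), row AREK: the energy over the strip, from the middle region. -/

set_option autoImplicit false

open Complex Filter Topology MeasureTheory ArithmeticFunction Set
open scoped ENNReal

namespace Pool.Agent.Lib.MP_6bc78b_nt.GP.H27A

open Pool.Agent.Lib.MP_6bc78b_nt.MS Pool.Agent.Lib.MP_6bc78b_nt.MS.P1
  Pool.Agent.Lib.MP_6bc78b_nt.GP.G7 Pool.Agent.Lib.MP_6bc78b_nt.GP.G8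
  Pool.Agent.Lib.MP_6bc78b_nt.GP.G10

/-- **AREK.** -/
theorem arek (hM : MIDKStatement) (h5 : ARE5Statement) (hS : STRXStatement) (hB : BASXStatement)
    (hA : ARI0Statement) : AREKStatement := by
  intro RH A B D hD a b R κ₀ ε ha hab hR hκ hε
  obtain ⟨c, T1, hc0, hc1, hT1, h1⟩ := X35.core h5 hS hB hA RH A B D hD a b R κ₀ ε ha hab hR hκ hε
  obtain ⟨H0, T2, hH0, hT2, h2⟩ := hM RH A B a b (ε / 3) ha hab (by positivity)
  have hlog : Tendsto (fun T : ℝ => Real.log T) atTop atTop := Real.tendsto_log_atTop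
  obtain ⟨T3, hT3⟩ := eventually_atTop.1 (hlog.eventually_ge_atTop 1)
  refine ⟨max 1 (H0 / c), max T1 (max T2 T3), le_max_left _ _, lt_max_of_lt_left hT1,
    fun T lam hT hl1 hl2 => ?_⟩
  have hTa : T1 ≤ T := (le_max_left _ _).trans hT
  have hTb : T2 ≤ T := ((le_max_left _ _).trans (le_max_right _ _)).trans hT
  have e2 := hT3 T (((le_max_right _ _).trans (le_max_right _ _)).trans hT)
  have hlam1 : 1 ≤ lam := (le_max_left _ _).trans hl1
  have hlam : 0 < lam := by linarith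
  refine h1 T lam hTa hlam hl2 (h2 T (c * lam) hTb ?_ ?_)
  · have h3 : H0 / c ≤ lam := (le_max_right _ _).trans hl1
    rw [div_le_iff₀ hc0] at h3
    linarith
  · have : c * lam ≤ lam := by nlinarith
    nlinarith

end Pool.Agent.Lib.MP_6bc78b_nt.GP.H27A
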