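import Pool.Agent.Lib.MP_6bc78b_nt.GP.Iface
import Pool.Agent.Lib.MP_6bc78b_nt.LocalEdges
import Pool.Agent.Lib.MP_6bc78b_nt.Crude
import Pool.Agent.Lib.MP_6bc78b_nt.Blaschke

/-! Module GAMB: the upper bound of Stirling type for the gamma function in `1/2 ≤ Re ≤ 2`. -/

set_option autoImplicit false

open Complex Set Filter Topology

namespace Pool.Agent.Lib.MP_6bc78b_nt.GP.H27

open Pool.Agent.Lib.MP_6bc78b_nt

/-- The range `|w| ≥ 1`. -/
lemma gamb_large :
    ∃ C : ℝ, 0 < C ∧ ∀ z : ℂ, 1 / 2 ≤ z.re → z.re ≤ 2 → 1 ≤ |z.im| →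
      ‖Complex.Gamma z‖ ≤ C * (1 + |z.im|) ^ (z.re - 1 / 2) * Real.exp (-(Real.pi / 2 * |z.im|)) := by
  obtain ⟨C, hC, h⟩ := exists_norm_Gamma_cos_le'
  refine ⟨4 * C, by linarith, ?_⟩
  intro z h1 h2 h3
  have hb := h z h1 h2 h3
  rw [norm_mul] at hb
  have hcos := norm_cos_sq ((Real.pi:ℂ) * z / 2)
  have e1 : 2 * ((Real.pi:ℂ) * z / 2).im = Real.pi * z.im := by
    have : (Real.pi:ℂ) * z / 2 = ((Real.pi/2 : ℝ):ℂ) * z := by push_cast; ring
    rw [this, Complex.im_ofReal_mul]; ring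
  rw [e1] at hcos
  have hch : Real.exp (Real.pi * |z.im|) / 2 ≤ Real.cosh (Real.pi * z.im) := by
    rw [← Real.cosh_abs, abs_mul, abs_of_pos Real.pi_pos, Real.cosh_eq]
    have := Real.exp_pos (-(Real.pi * |z.im|))
    linarith
  have hE : 8 ≤ Real.exp (Real.pi * |z.im|) := by
    have hp := Real.pi_gt_three
    have h5 : 3 ≤ Real.pi * |z.im| := by nlinarith
    have h6 : Real.exp 3 ≤ Real.exp (Real.pi * |z.im|) := Real.exp_le_exp.2 h5
    have h7 : Real.exp 3 = Real.exp 1 ^ 3 := by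
      rw [← Real.exp_nat_mul]; norm_num
    have h8 : (2:ℝ) ≤ Real.exp 1 := by
      have := Real.add_one_le_exp (1:ℝ)
      linarith
    have h9 : (2:ℝ) ^ 3 ≤ Real.exp 1 ^ 3 := pow_le_pow_left₀ (by norm_num) h8 3
    rw [h7] at h6
    linarith
  have hcosl := Real.neg_one_le_cos (2 * ((Real.pi:ℂ) * z / 2).re)
  have hc2 : (Real.exp (Real.pi / 2 * |z.im|) / 4) ^ 2 ≤ ‖Complex.cos ((Real.pi:ℂ) * z / 2)‖ ^ 2 := by
    rw [hcos, div_pow, ← Real.exp_nat_mul]
    have e2 : ((2:ℕ):ℝ) * (Real.pi / 2 * |z.im|) = Real.pi * |z.im| := by push_cast; ring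
    rw [e2]
    linarith
  have hc3 : Real.exp (Real.pi / 2 * |z.im|) / 4 ≤ ‖Complex.cos ((Real.pi:ℂ) * z / 2)‖ :=
    le_of_sq_le_sq hc2 (norm_nonneg _)
  have hEp : 0 < Real.exp (Real.pi / 2 * |z.im|) := Real.exp_pos _
  have h6 : ‖Complex.Gamma z‖ * (Real.exp (Real.pi / 2 * |z.im|) / 4) ≤
      C * (1 + |z.im|) ^ (z.re - 1 / 2) :=
    le_trans (mul_le_mul_of_nonneg_left hc3 (norm_nonneg _)) hb
  rw [Real.exp_neg, ← div_eq_mul_inv, le_div_iff₀ hEp]
  linarith

/-- GAMB. -/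
theorem gamb : GAMBStatement := by
  obtain ⟨C1, hC1, hL⟩ := gamb_large
  have hcont : ContinuousOn Real.Gamma (Icc (1 / 2 : ℝ) 2) := by
    intro x hx
    apply ContinuousAt.continuousWithinAt
    apply (Real.differentiableAt_Gamma ?_).continuousAt
    intro m hm
    have h0 : (0:ℝ) ≤ m := Nat.cast_nonneg m
    have := hx.1
    rw [hm] at this
    linarith
  obtain ⟨G, hG⟩ := isCompact_Icc.exists_bound_of_continuousOn hcont
  refine ⟨C1 + (|G| + 1) * Real.exp (Real.pi / 2), by positivity, ?_⟩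
  intro σ w h1 h2
  set z : ℂ := σ + w * I with hz
  have hre : z.re = σ := by rw [hz]; simp
  have him : z.im = w := by rw [hz]; simp
  have hY : 0 < 1 + |w| := by positivity
  have hP : 0 < (1 + |w|) ^ (σ - 1 / 2) := Real.rpow_pos_of_pos hY _
  have hX : 0 < Real.exp (-(Real.pi / 2 * |w|)) := Real.exp_pos _
  rcases le_or_gt 1 |w| with h3 | h3
  · have hb := hL z (by rw [hre]; exact h1) (by rw [hre]; exact h2) (by rw [him]; exact h3)
    rw [hre, him] at hb
    refine hb.trans ?_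
    apply mul_le_mul_of_nonneg_right _ hX.le
    apply mul_le_mul_of_nonneg_right _ hP.le
    have : 0 ≤ (|G| + 1) * Real.exp (Real.pi / 2) := by positivity
    linarith
  · have hb : ‖Complex.Gamma z‖ ≤ |G| := by
      refine (norm_Gamma_le (by rw [hre]; linarith)).trans ?_
      rw [hre]
      have := hG σ ⟨h1, h2⟩
      rw [Real.norm_eq_abs] at this
      exact (le_abs_self _).trans (this.trans (le_abs_self _))
    have hP1 : 1 ≤ (1 + |w|) ^ (σ - 1 / 2) :=
      Real.one_le_rpow (by linarith [abs_nonneg w]) (by linarith)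
    have hE1 : 1 ≤ Real.exp (Real.pi / 2) * Real.exp (-(Real.pi / 2 * |w|)) := by
      rw [← Real.exp_add]
      apply Real.one_le_exp
      have hp := Real.pi_pos
      nlinarith
    calc ‖Complex.Gamma z‖ ≤ |G| + 1 := by linarith
      _ ≤ (|G| + 1) * (1 * (Real.exp (Real.pi / 2) * Real.exp (-(Real.pi / 2 * |w|)))) := by
          rw [one_mul]
          have : 0 < |G| + 1 := by positivity
          nlinarith
      _ ≤ (|G| + 1) * ((1 + |w|) ^ (σ - 1 / 2) *
            (Real.exp (Real.pi / 2) * Real.exp (-(Real.pi / 2 * |w|)))) := by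
          apply mul_le_mul_of_nonneg_left _ (by positivity)
          apply mul_le_mul_of_nonneg_right hP1 (by positivity)
      _ = ((|G| + 1) * Real.exp (Real.pi / 2)) * (1 + |w|) ^ (σ - 1 / 2) *
            Real.exp (-(Real.pi / 2 * |w|)) := by ring
      _ ≤ (C1 + (|G| + 1) * Real.exp (Real.pi / 2)) * (1 + |w|) ^ (σ - 1 / 2) *
            Real.exp (-(Real.pi / 2 * |w|)) := by
          apply mul_le_mul_of_nonneg_right _ hX.le
          apply mul_le_mul_of_nonneg_right _ hP.le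
          linarith

end Pool.Agent.Lib.MP_6bc78b_nt.GP.H27
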