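import Pool.Agent.Lib.MP_6bc78b_nt.GP.H69.Mvtx
import Pool.Agent.Lib.MP_6bc78b_nt.GP.H69.Sml8
import Pool.Agent.Lib.MP_6bc78b_nt.GP.H71.Cmb2
import Pool.Agent.Lib.MP_6bc78b_nt.GP.H71.Cmbx
import Pool.Agent.Lib.MP_6bc78b_nt.GP.H23.Basx
import Pool.Agent.Lib.MP_6bc78b_nt.GP.H19.Polx
import Pool.Agent.Lib.MP_6bc78b_nt.GP.H42.Rayx
import Pool.Agent.Lib.MP_6bc78b_nt.GP.H45.Rng8
import Pool.Agent.Lib.MP_6bc78b_nt.GP.H99.Gxs
import Pool.Agent.Lib.MP_6bc78b_nt.GP.H88.Smox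
import Pool.Agent.Lib.MP_6bc78b_nt.GP.H74.Strx
import Pool.Agent.Lib.MP_6bc78b_nt.GP.H70.Ari0
import Pool.Agent.Lib.MP_6bc78b_nt.GP.H66.Prb6
import Pool.Agent.Lib.MP_6bc78b_nt.GP.H10.Goodx
import Pool.Agent.Lib.MP_6bc78b_nt.GP.H66.Medk
import Pool.Agent.Lib.MP_6bc78b_nt.GP.H87.Highk
import Pool.Agent.Lib.MP_6bc78b_nt.GP.H78.Deck
import Pool.Agent.Lib.MP_6bc78b_nt.GP.H81.Merk
import Pool.Agent.Lib.MP_6bc78b_nt.GP.H39.Seqk
import Pool.Agent.Lib.MP_6bc78b_nt.GP.H27.Melk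
import Pool.Agent.Lib.MP_6bc78b_nt.GP.H27.Midk
import Pool.Agent.Lib.MP_6bc78b_nt.GP.H27.Arek
import Pool.Agent.Lib.MP_6bc78b_nt.GP.H6.Final5

/-! Project GP10 (MP_6bc78b_nt): the arithmetic side without hypotheses. -/

set_option autoImplicit false

namespace Pool.Agent.Lib.MP_6bc78b_nt.GP.H27A

open Pool.Agent.Lib.MP_6bc78b_nt Pool.Agent.Lib.MP_6bc78b_nt.GP
  Pool.Agent.Lib.MP_6bc78b_nt.GP.H6 Pool.Agent.Lib.MP_6bc78b_nt.GP.G7
  Pool.Agent.Lib.MP_6bc78b_nt.GP.G8 Pool.Agent.Lib.MP_6bc78b_nt.GP.G9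
  Pool.Agent.Lib.MP_6bc78b_nt.GP.G10

/-- MELK without hypotheses. -/
theorem melk0 : MELKStatement := by
  have mv : MVTXStatement := G7.mvtx
  have bas : BASXStatement := G7.basx
  have cmb : CMB2XStatement := H71.cmb2x mv
  exact H27N.melk (H78K.deck mv bas) (H69.sml8 mv bas) (H10G.goodx mv bas) (H66.medk cmb bas)
    (H87K.highk H66.prbx (H71.cmbx mv) mv bas) H81.merk G10S.seqk

/-- **AREK without hypotheses**: the energy over the strip, all windows longer than a constant. -/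
theorem arek0 : AREKStatement := by
  have dx2 : DX2Statement := H38.dx2
  have are : ARE5Statement :=
    are5 (ray5 (mel H82.gami dx2 H16.grw H27.gamb) H13.plc (dms5 H64.zms H27.gamb))
  have bas : BASXStatement := G7.basx
  have midk : MIDKStatement := H27N.midk (G7.H19.polx (H42.rayx H82.gami H13.plc H27.gamb)) melk0
    H45.rng8 GX99.gxs G7.smox G7.strx bas H70.ari0
  exact arek midk are G7.strx bas H70.ari0

end Pool.Agent.Lib.MP_6bc78b_nt.GP.H27A
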