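import Pool.Agent.Lib.MP_6bc78b_nt.GP.H27.Chb9a
import Pool.Agent.Lib.MP_6bc78b_nt.GP.H91.Chb7b

/-! Project GP9, module CHB9: the measure of the centres with few simple zeros within `2 lam`,
`C log log log T ≤ lam ≤ log T`. -/

set_option autoImplicit false

open Complex Filter Topology MeasureTheory ArithmeticFunction Set
open scoped ENNReal

namespace Pool.Agent.Lib.MP_6bc78b_nt.GP.H27K

open Pool.Agent.Lib.MP_6bc78b_nt Pool.Agent.Lib.MP_6bc78b_nt.MS Pool.Agent.Lib.MP_6bc78b_nt.MS.P1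
open Pool.Agent.Lib.MP_6bc78b_nt.GP.H91K Pool.Agent.Lib.MP_6bc78b_nt.GP.H91L
  Pool.Agent.Lib.MP_6bc78b_nt.GP.G7 Pool.Agent.Lib.MP_6bc78b_nt.GP.G9

/-- The centres in one part of `[T, 2 T]`. -/
theorem half9 (hdx : DX1Statement) (havg : AVG9Statement) (hbox : BOXKStatement)
    (hcon : CONKStatement) (hlft : LFTRKStatement) (hgam : GAMCStatement) (hetr : ETRStatement)
    (hker : KERStatement) (hcel : CELStatement) (hmom : MOM6Statement) :
    RiemannHypothesis → ∃ C0 : ℝ, 1 ≤ C0 ∧ ∀ ε : ℝ, 0 < ε → ∃ (c T0 : ℝ), 0 < c ∧ 10 < T0 ∧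
      ∀ T lam a b : ℝ, T0 ≤ T → C0 * Real.log (Real.log (Real.log T)) ≤ lam → lam ≤ Real.log T →
      T ≤ a - lam → b + lam ≤ 2 * T →
      volume {t : ℝ | a ≤ t ∧ t ≤ b ∧ ((zs t (2 * lam)).ncard : ℝ) ≤ c * lam} ≤
        ENNReal.ofReal (ε * T) := by
  intro hRH
  obtain ⟨A, B, D, hD⟩ := hdx hRH
  obtain ⟨c, C₃, T₃, hc, hC₃, hT₃, h3⟩ := hlft A B
  obtain ⟨Cb, hCb, hbox⟩ := hbox
  obtain ⟨H, hHdef⟩ : ∃ H, H = max C₃ 8 := ⟨_, rfl⟩
  have hH8 : 8 ≤ H := by rw [hHdef]; exact le_max_right _ _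
  have hHC : C₃ ≤ H := by rw [hHdef]; exact le_max_left _ _
  have hH0 : 0 < H := by linarith
  refine ⟨2 * H, by linarith, fun ε hε => ?_⟩
  obtain ⟨T₁, hT₁, h1⟩ := havg hRH A B D hD (ε * c ^ 2 / (4 * Cb)) (by positivity)
  obtain ⟨T₂, h2⟩ := eventually_atTop.1 (hcon hRH A B)
  obtain ⟨C₄, T₉, hC₄, hT₉, h9⟩ := sumd hcel hmom
  obtain ⟨C₂, T₈, hC₂, hT₈, h8⟩ := hmom
  have hlog : Tendsto Real.log atTop atTop := Real.tendsto_log_atTop
  obtain ⟨T₅, h5⟩ := eventually_atTop.1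
    ((hlog.comp (hlog.comp hlog)).eventually_ge_atTop (5 : ℝ))
  obtain ⟨T₆, h6⟩ := eventually_atTop.1
    (hlog.eventually_ge_atTop (8 / c + 192 * C₄ / (c * ε) + 1 + H))
  obtain ⟨T₇, h7⟩ := eventually_atTop.1 ((Real.isLittleO_pow_log_id_atTop (n := 2)).bound
    (c := 1 / 20) (by norm_num))
  obtain ⟨η, hη⟩ : ∃ η : ℝ, η = ε / (20 * C₂) := ⟨_, rfl⟩
  have hη0 : 0 < η := by rw [hη]; positivity
  refine ⟨(c / 12) ^ 2 * η,
    max T₁ (max T₂ (max T₃ (max T₅ (max T₆ (max T₇ (max T₈ T₉)))))), by positivity,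
    lt_max_of_lt_left hT₁, fun T lam a b hT hl1 hl2 ha hb => ?_⟩
  have hTT₁ : T₁ ≤ T := (le_max_left _ _).trans hT
  have hr1 := (le_max_right _ _).trans hT
  have hTT₂ : T₂ ≤ T := (le_max_left _ _).trans hr1
  have hr2 := (le_max_right _ _).trans hr1
  have hTT₃ : T₃ ≤ T := (le_max_left _ _).trans hr2
  have hr3 := (le_max_right _ _).trans hr2
  have hTT₅ : T₅ ≤ T := (le_max_left _ _).trans hr3
  have hr5 := (le_max_right _ _).trans hr3
  have hTT₆ : T₆ ≤ T := (le_max_left _ _).trans hr5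
  have hr6 := (le_max_right _ _).trans hr5
  have hTT₇ : T₇ ≤ T := (le_max_left _ _).trans hr6
  have hr7 := (le_max_right _ _).trans hr6
  have hTT₈ : T₈ ≤ T := (le_max_left _ _).trans hr7
  have hTT₉ : T₉ ≤ T := (le_max_right _ _).trans hr7
  clear hr1 hr2 hr3 hr5 hr6 hr7 hT
  have hT10 : 10 < T := lt_of_lt_of_le hT₁ hTT₁
  have hT0 : 0 < T := by linarith
  have h8T := h8 T hTT₈
  have hL5 : 5 ≤ Real.log (Real.log (Real.log T)) := h5 T hTT₅
  have hL6 : 8 / c + 192 * C₄ / (c * ε) + 1 + H ≤ Real.log T := h6 T hTT₆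
  have hL7 := h7 T hTT₇
  have g1 := h1 T
  have g2 := h2 T hTT₂
  have g3 := fun x δ H => h3 T x δ H hTT₃
  have g9 := h9 T hTT₉
  clear h1 h2 h3 h5 h6 h7 h8 h9 hTT₅ hTT₆ hTT₇ hTT₈ hlog
  obtain ⟨L, hLdef⟩ : ∃ L, L = Real.log T := ⟨_, rfl⟩
  rw [← hLdef] at h8T hL5 hL6 hL7 g1 g2 g3 g9 hl1 hl2
  have hc8 : 0 < 8 / c := by positivity
  have hc9 : 0 < 192 * C₄ / (c * ε) := by positivity
  have hL1 : 1 ≤ L := by linarith
  have hL0 : 0 < L := by linarith
  have hHL : H ≤ L := by linarith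
  have hL7' : L ^ 2 ≤ T / 20 := by
    rw [Real.norm_of_nonneg (by positivity)] at hL7
    simp only [id, Real.norm_of_nonneg hT0.le] at hL7
    linarith
  obtain ⟨l, hldef⟩ : ∃ l, l = Real.log L := ⟨_, rfl⟩
  rw [← hldef] at hL5 g1 hl1
  have hl0 : 0 < l := by
    by_contra h
    have h2 : 0 ≤ l := by rw [hldef]; exact Real.log_nonneg hL1
    have h3 : l = 0 := le_antisymm (not_lt.1 h) h2
    rw [h3, Real.log_zero] at hL5
    linarith
  have hl60 : 60 ≤ l := by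
    rw [← Real.exp_log hl0]
    refine le_trans ?_ (Real.exp_le_exp.2 hL5)
    have e : Real.exp 5 = Real.exp 1 ^ 5 := by
      rw [← Real.exp_nat_mul]
      norm_num
    rw [e]
    have h1 : (2.7 : ℝ) ^ 5 ≤ Real.exp 1 ^ 5 :=
      pow_le_pow_left₀ (by norm_num) (by have := Real.exp_one_gt_d9; linarith) 5
    refine le_trans (by norm_num) h1
  have hlogl : 0 < Real.log l := by linarith
  have hlam50 : 50 ≤ lam := by nlinarith
  have hlamll : Real.log l ≤ lam := by nlinarith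
  obtain ⟨hcosh, hexp⟩ := nums9 (lam := lam) hldef hL1 hl60 hH0 hl1
  obtain ⟨r, hr⟩ : ∃ r, r = Real.sqrt (8 * l) := ⟨_, rfl⟩
  rw [← hr] at hcosh hexp
  have hlam0 : 0 < lam := by linarith
  obtain ⟨hLT, hLT4, hsqL, hL2⟩ := ineq1 hL1 hL7'
  obtain ⟨δ, ⟨hδ1, hδ2⟩, hδ⟩ := g1 H lam hTT₁ hlamll hl2 hH8
  have hδ0 : 0 < δ := lt_of_lt_of_le (by positivity) hδ1
  have hδh : δ ≤ 1 / 2 := by
    refine hδ2.trans ?_
    rw [div_le_div_iff₀ hT0 (by norm_num)]
    linarith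
  have h9 := hbox A B δ H lam hδ0 hδh (by linarith) hlam0
  have hcont := seK_cont hker hetr A B δ H hδ0 hδh (by linarith)
  have hwc : Continuous (fun t : ℝ => ∫ x in (t - lam)..(t + lam), SEK A B δ H x) := by
    have := win_cont hcont (-lam) lam
    simpa only [← sub_eq_add_neg] using this
  have hcHL : 8 ≤ c * H * L ^ 2 := alg6 hc (by linarith) (by linarith) hL1
  have hm1p : 0 < lam * (c * H * L ^ 2) := by positivity
  obtain ⟨G, hG⟩ : ∃ G : Finset ℝ, G = (zs_fin (9 * T / 4) (7 * T / 4)).toFinset := ⟨_, rfl⟩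
  have hGm : ∀ γ : ℝ, γ ∈ G ↔ |γ - 9 * T / 4| < 7 * T / 4 ∧ mz γ = 1 := fun γ => by
    rw [hG, Set.Finite.mem_toFinset]
    rfl
  have hGS := g9 G fun γ hγ => by
    have h1 := abs_lt.1 ((hGm γ).1 hγ).1
    exact ⟨by linarith [h1.1], by linarith [h1.2], ((hGm γ).1 hγ).2⟩
  -- the inclusion
  have hsub : {t : ℝ | a ≤ t ∧ t ≤ b ∧ ((zs t (2 * lam)).ncard : ℝ) ≤ (c / 12) ^ 2 * η * lam} ⊆
      ({t : ℝ | lam * (c * H * L ^ 2) ≤ ‖∫ x in (t - lam)..(t + lam), SEK A B δ H x‖} ∪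
      {t : ℝ | T ≤ t ∧ t ≤ 2 * T ∧
        lam * L ^ 4 / η ≤ ∫ x in (t + -(2 * lam))..(t + (2 * lam + 1 / L)), GG6 L x}) ∪
      {t : ℝ | T ≤ t ∧ t ≤ 2 * T ∧
        1 / 4 * (lam * (c * H * L ^ 2)) ≤ ∫ x in (t + -lam)..(t + lam), far G H r x} := by
    rintro t ⟨ht1, ht2, ht3⟩
    by_cases hc3 : 1 / 4 * (lam * (c * H * L ^ 2)) ≤ ∫ x in (t + -lam)..(t + lam), far G H r x
    · exact Or.inr ⟨by linarith, by linarith, hc3⟩
    refine Or.inl ?_
    by_cases hc2 : lam * L ^ 4 / η ≤ ∫ x in (t + -(2 * lam))..(t + (2 * lam + 1 / L)), GG6 L x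
    · exact Or.inr ⟨by linarith, by linarith, hc2⟩
    push Not at hc2 hc3
    refine Or.inl ?_
    refine incl7 hcel hcont (far_cont G H r) (far_nonneg G H r) (I₀ := fun x => ILK A B T δ H x)
      (R := fun x => SSK T δ H x) hL0 hη0 hc
      hlam0 hH0 hcHL (by linarith) (by linarith)
      (fun x hx1 hx2 => g2 x δ H hx1 hx2 hδ1 hδ2 (by linarith) hHL)
      (fun x hx1 hx2 => g3 x δ H hx1 hx2 hδ1 hδ2 hHC hHL)
      (fun x hx1 hx2 hx3 F hF => ?_) ht3 hc2 hc3.le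
    have k1 := tlsK hgam (x := x) (H := H) hT0 hδ0.le (F ∪ G) (fun γ hγ1 hγ2 hmz => by
      rw [Finset.mem_union]
      exact Or.inr ((hGm γ).2 ⟨abs_lt.2 ⟨by linarith, by linarith⟩, hmz⟩))
    have k2 := split9 (t := t) (x := x) (rho := lam / H) (r := r) (s := 2 * lam) hH0
      (by positivity) F G (by
        have e : lam / H * H = lam := by field_simp
        rw [e]
        linarith) (fun γ hγ h => hF γ h ((hGm γ).1 hγ).2) hcosh
    linarith
  -- the measures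
  have hv1 : volume {t : ℝ | lam * (c * H * L ^ 2) ≤
      ‖∫ x in (t - lam)..(t + lam), SEK A B δ H x‖} ≤
      ENNReal.ofReal (ε / 4 * T) := by
    have hB : ∫⁻ t : ℝ, ENNReal.ofReal (‖∫ x in (t - lam)..(t + lam), SEK A B δ H x‖ ^ 2) ≤
        ENNReal.ofReal (Cb * lam ^ 2 * H ^ 2 * (ε * c ^ 2 / (4 * Cb) * T * L ^ 4)) := by
      refine h9.trans ?_
      rw [ENNReal.ofReal_mul (by positivity : 0 ≤ Cb * lam ^ 2 * H ^ 2)]
      exact mul_le_mul_right hδ _
    refine (sq_mark hwc hm1p hB).trans (ENNReal.ofReal_le_ofReal (le_of_eq ?_))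
    rw [alg9 hc hlam0 hL0 hH0]
    field_simp
  have hv2 := mom_mark hL1 hT0 hlam50 (by linarith : lam ≤ T / 4) hη0 hC₂ h8T
  have e5 : 5 * C₂ * T * η = ε / 4 * T := by
    rw [hη]
    field_simp
    ring
  rw [e5] at hv2
  have hv3 := far_mark (G := G) (rho := r) (m := 1 / 4 * (lam * (c * H * L ^ 2))) hH0 hT0.le hlam0
    (by positivity) hGS
  rw [hexp, alg8 hc hlam0 hL0 hH0] at hv3
  have e6 : 48 * C₄ / (c * L ^ 2) * T ≤ ε / 4 * T := by
    exact mul_le_mul_of_nonneg_right (ineq2 hc hε hL1 hL2 (by linarith)) hT0.le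
  have hv3' := hv3.trans (ENNReal.ofReal_le_ofReal e6)
  refine (measure_mono hsub).trans ((measure_union_le _ _).trans
    ((add_le_add ((measure_union_le _ _).trans (add_le_add hv1 hv2)) hv3').trans ?_))
  rw [← ENNReal.ofReal_add (by positivity) (by positivity),
    ← ENNReal.ofReal_add (by positivity) (by positivity)]
  refine ENNReal.ofReal_le_ofReal ?_
  have k4 := mul_pos hε hT0
  have k5 : ε / 4 * T + ε / 4 * T + ε / 4 * T = 3 / 4 * (ε * T) := by ring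
  rw [k5]
  linarith

/-- Comparison of the parameters at `T` and at a nearby point. -/
theorem para9 {T S : ℝ} (hT : 10 < T) (hS1 : 9 * T / 10 ≤ S) (hS2 : S ≤ 6 * T / 5)
    (hl : 1 ≤ Real.log (Real.log (Real.log T))) (hl2 : 3 ≤ Real.log (Real.log T)) :
    Real.log (Real.log (Real.log S)) ≤ 2 * Real.log (Real.log (Real.log T)) ∧
      Real.log T / 2 ≤ Real.log S := by
  have hT0 : 0 < T := by linarith
  have hS0 : 0 < S := by linarith
  have hL0 : 0 < Real.log T := Real.log_pos (by linarith)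
  have hl20 : 0 < Real.log (Real.log T) := by linarith
  have h2 : Real.log 2 ≤ 1 := by
    have := Real.log_two_lt_d9
    linarith
  have hS3 : Real.log T / 2 ≤ Real.log S := by
    have e1 : Real.log T / 2 = Real.log (Real.sqrt T) := by rw [Real.log_sqrt hT0.le]
    rw [e1]
    refine Real.log_le_log (Real.sqrt_pos.2 hT0) ?_
    refine le_trans ?_ hS1
    rw [Real.sqrt_le_left (by positivity)]
    nlinarith
  refine ⟨?_, hS3⟩
  have hS4 : Real.log S ≤ 2 * Real.log T := by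
    have e : 2 * Real.log T = Real.log (T ^ 2) := by rw [Real.log_pow]; norm_num
    rw [e]
    exact Real.log_le_log hS0 (by nlinarith)
  have hLS : 0 < Real.log S := by linarith
  have a1 : Real.log (Real.log S) ≤ 2 * Real.log (Real.log T) := by
    have h3 := Real.log_le_log hLS hS4
    rw [Real.log_mul (by norm_num) hL0.ne'] at h3
    linarith
  have a2 : Real.log (Real.log T) - 1 ≤ Real.log (Real.log S) := by
    have h3 := Real.log_le_log (by linarith : 0 < Real.log T / 2) hS3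
    rw [Real.log_div hL0.ne' (by norm_num)] at h3
    linarith
  have h4 := Real.log_le_log (by linarith : 0 < Real.log (Real.log S)) a1
  rw [Real.log_mul (by norm_num) hl20.ne'] at h4
  linarith

/-- **CHB9.** -/
theorem chb9 (hdx : DX1Statement) (havg : AVG9Statement) (hbox : BOXKStatement)
    (hcon : CONKStatement) (hlft : LFTRKStatement) (hgam : GAMCStatement) (hetr : ETRStatement)
    (hker : KERStatement) (hcel : CELStatement) (hmom : MOM6Statement) : CHB9Statement := by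
  intro hRH
  obtain ⟨C0, hC0, H⟩ := half9 hdx havg hbox hcon hlft hgam hetr hker hcel hmom hRH
  refine ⟨4 * C0, by linarith, fun ε hε => ?_⟩
  obtain ⟨c, T0, hc, hT0, h⟩ := H (ε / 4) (by positivity)
  have hlog : Tendsto Real.log atTop atTop := Real.tendsto_log_atTop
  obtain ⟨T₅, h5⟩ := eventually_atTop.1
    ((hlog.comp (hlog.comp hlog)).eventually_ge_atTop (1 : ℝ))
  obtain ⟨T₆, h6⟩ := eventually_atTop.1 ((hlog.comp hlog).eventually_ge_atTop (3 : ℝ))
  obtain ⟨T₇, h7⟩ := eventually_atTop.1 ((Real.isLittleO_pow_log_id_atTop (n := 1)).bound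
    (c := 1 / 10) (by norm_num))
  refine ⟨c / 2, by positivity, max (2 * T0) (max T₅ (max T₆ T₇)),
    lt_max_of_lt_left (by linarith), fun T lam hT hl1 hl2 => ?_⟩
  have hTT₀ : 2 * T0 ≤ T := (le_max_left _ _).trans hT
  have hr1 := (le_max_right _ _).trans hT
  have hTT₅ : T₅ ≤ T := (le_max_left _ _).trans hr1
  have hr2 := (le_max_right _ _).trans hr1
  have hTT₆ : T₆ ≤ T := (le_max_left _ _).trans hr2
  have hTT₇ : T₇ ≤ T := (le_max_right _ _).trans hr2
  have hT10 : 10 < T := by linarith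
  have hTp : 0 < T := by linarith
  have hl5 : 1 ≤ Real.log (Real.log (Real.log T)) := h5 T hTT₅
  have hl6 : 3 ≤ Real.log (Real.log T) := h6 T hTT₆
  have hL0 : 0 < Real.log T := Real.log_pos (by linarith)
  have hL7 : Real.log T ≤ T / 10 := by
    have h8 := h7 T hTT₇
    simp only [pow_one, id, Real.norm_of_nonneg hTp.le, Real.norm_of_nonneg hL0.le] at h8
    linarith
  obtain ⟨a1, a2⟩ := para9 (S := 9 * T / 10) hT10 le_rfl (by linarith) hl5 hl6
  obtain ⟨b1, b2⟩ := para9 (S := 6 * T / 5) hT10 (by linarith) le_rfl hl5 hl6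
  have a3 := mul_le_mul_of_nonneg_left a1 (by linarith : 0 ≤ C0)
  have b3 := mul_le_mul_of_nonneg_left b1 (by linarith : 0 ≤ C0)
  have h1 := h (9 * T / 10) (lam / 2) T (3 * T / 2) (by linarith) (by linarith) (by linarith)
    (by linarith) (by linarith)
  have h2 := h (6 * T / 5) (lam / 2) (3 * T / 2) (2 * T) (by linarith) (by linarith) (by linarith)
    (by linarith) (by linarith)
  have hlam : 0 < lam := by nlinarith
  have hsub : {t : ℝ | T ≤ t ∧ t ≤ 2 * T ∧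
        (({γ : ℝ | |γ - t| < 2 * lam ∧ mz γ = 1}.ncard : ℕ) : ℝ) ≤ c / 2 * lam} ⊆
      {t : ℝ | T ≤ t ∧ t ≤ 3 * T / 2 ∧ ((zs t (2 * (lam / 2))).ncard : ℝ) ≤ c * (lam / 2)} ∪
      {t : ℝ | 3 * T / 2 ≤ t ∧ t ≤ 2 * T ∧
        ((zs t (2 * (lam / 2))).ncard : ℝ) ≤ c * (lam / 2)} := by
    rintro t ⟨h3, h4, h5⟩
    have h6 : ((zs t (2 * (lam / 2))).ncard : ℝ) ≤ c * (lam / 2) := by
      have h7 : (zs t (2 * (lam / 2))).ncard ≤ (zs t (2 * lam)).ncard :=
        Set.ncard_le_ncard (fun γ hγ => ⟨lt_of_lt_of_le hγ.1 (by linarith), hγ.2⟩)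
          (zs_fin t (2 * lam))
      have h8 : ((zs t (2 * (lam / 2))).ncard : ℝ) ≤ ((zs t (2 * lam)).ncard : ℝ) := by
        exact_mod_cast h7
      have h9 : ((zs t (2 * lam)).ncard : ℝ) ≤ c / 2 * lam := h5
      linarith
    rcases le_total t (3 * T / 2) with h7 | h7
    · exact Or.inl ⟨h3, h7, h6⟩
    · exact Or.inr ⟨h7, h4, h6⟩
  refine (measure_mono hsub).trans ((measure_union_le _ _).trans ((add_le_add h1 h2).trans ?_))
  rw [← ENNReal.ofReal_add (by positivity) (by positivity)]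
  refine ENNReal.ofReal_le_ofReal ?_
  nlinarith [mul_pos hε hTp]

end Pool.Agent.Lib.MP_6bc78b_nt.GP.H27K
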