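import Pool.Agent.Lib.MP_6bc78b_nt.GP.H91.Chb7
import Pool.Agent.Lib.MP_6bc78b_nt.GP.H91.Box
import Pool.Agent.Lib.MP_6bc78b_nt.GP.H62.Defs9

/-! Project GP9, module CHB9, first part: the window `exp (1 - cosh)`. -/

set_option autoImplicit false

open Complex Filter Topology MeasureTheory ArithmeticFunction Set
open scoped ENNReal

namespace Pool.Agent.Lib.MP_6bc78b_nt.GP.H27K

open Pool.Agent.Lib.MP_6bc78b_nt Pool.Agent.Lib.MP_6bc78b_nt.MS Pool.Agent.Lib.MP_6bc78b_nt.MS.P1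
open Pool.Agent.Lib.MP_6bc78b_nt.GP.H91K Pool.Agent.Lib.MP_6bc78b_nt.GP.H91L
  Pool.Agent.Lib.MP_6bc78b_nt.GP.G7 Pool.Agent.Lib.MP_6bc78b_nt.GP.G9

theorem int_exp_abs : Integrable (fun u : ℝ => Real.exp (-|u|)) := by
  refine (integrable_inv_one_add_sq.const_mul 2).mono'
    (by fun_prop : Continuous fun u : ℝ => Real.exp (-|u|)).aestronglyMeasurable
    (Eventually.of_forall fun u => ?_)
  rw [Real.norm_of_nonneg (Real.exp_pos _).le, Real.exp_neg, ← one_div, ← one_div,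
    mul_one_div, div_le_div_iff₀ (Real.exp_pos _) (by positivity)]
  have h := Real.quadratic_le_exp_of_nonneg (abs_nonneg u)
  have h2 := sq_abs u
  have h3 := abs_nonneg u
  nlinarith

/-- The density is integrable. -/
theorem huK_int (hK : KERStatement) (h2 : ETRStatement) (A B δ H : ℝ) (hδ : 0 < δ)
    (hδ2 : δ ≤ 1 / 2) (hH : 4 ≤ H) : Integrable (fun u : ℝ => huK A B δ H u) := by
  obtain ⟨hkc, -, -, ⟨Ck, hCk, hk⟩, -, -⟩ := hK
  obtain ⟨hc, C, hC, hb⟩ := h2 A B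
  have hcont : Continuous (fun u : ℝ => EE A B (zp u δ)) := hc δ hδ (by linarith)
  have hH0 : 0 < H := by linarith
  refine (int_exp_abs.const_mul (H * Ck * (C / δ ^ 2))).mono' ?_ (Eventually.of_forall fun u => ?_)
  · have : Continuous (fun u : ℝ => huK A B δ H u) := by
      unfold huK
      exact (Complex.continuous_ofReal.comp (by fun_prop)).mul hcont
    exact this.aestronglyMeasurable
  · have h3 := hb u δ hδ hδ2
    have h4 := hk (H * u)
    have h5 : ‖huK A B δ H u‖ = H * |kk (H * u)| * Real.exp (u / 2) * ‖EE A B (zp u δ)‖ := by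
      unfold huK
      rw [norm_mul, Complex.norm_real, Real.norm_eq_abs, abs_mul, abs_mul, abs_of_pos hH0,
        abs_of_pos (Real.exp_pos _)]
    rw [h5]
    have h6 : H * |kk (H * u)| * Real.exp (u / 2) * ‖EE A B (zp u δ)‖ ≤
        H * (Ck * Real.exp (-|H * u|)) * Real.exp (u / 2) * (C * Real.exp (2 * |u|) / δ ^ 2) := by
      gcongr
    refine h6.trans ?_
    have h7 : H * (Ck * Real.exp (-|H * u|)) * Real.exp (u / 2) *
        (C * Real.exp (2 * |u|) / δ ^ 2) = H * Ck * (C / δ ^ 2) *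
        Real.exp (-|H * u| + u / 2 + 2 * |u|) := by
      rw [Real.exp_add, Real.exp_add]
      ring
    rw [h7]
    refine mul_le_mul_of_nonneg_left (Real.exp_le_exp.2 ?_) (by positivity)
    rw [abs_mul, abs_of_pos hH0]
    have h8 := le_abs_self u
    have h9 := abs_nonneg u
    nlinarith

/-- `S_E` is continuous. -/
theorem seK_cont (hK : KERStatement) (h2 : ETRStatement) (A B δ H : ℝ) (hδ : 0 < δ)
    (hδ2 : δ ≤ 1 / 2) (hH : 4 ≤ H) : Continuous (fun t : ℝ => SEK A B δ H t) := by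
  have hint := huK_int hK h2 A B δ H hδ hδ2 hH
  unfold SEK
  refine continuous_of_dominated (bound := fun u => ‖huK A B δ H u‖) (fun t => ?_)
    (fun t => Eventually.of_forall fun u => ?_) hint.norm (Eventually.of_forall fun u => ?_)
  · exact hint.aestronglyMeasurable.mul (Complex.continuous_exp.comp
      ((Complex.continuous_ofReal.mul continuous_const).mul
        continuous_const)).aestronglyMeasurable
  · rw [norm_mul, H91B.norm_e2, mul_one]
  · exact continuous_const.mul (Complex.continuous_exp.comp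
      ((continuous_const.mul Complex.continuous_ofReal).mul continuous_const))

/-- The sum over the zeros is bounded by the sum over the simple zeros. -/
theorem tlsK (hG : GAMCStatement) {T δ H x : ℝ} (hT0 : 0 < T) (hδ0 : 0 ≤ δ) (F : Finset ℝ)
    (hF : ∀ γ : ℝ, T / 2 < γ → γ < 4 * T → mz γ = 1 → γ ∈ F) :
    ‖SSK T δ H x‖ ≤ ∑ γ ∈ F, ‖deriv riemannZeta (1 / 2 + γ * I)‖ *
      Real.exp (1 - Real.cosh ((γ - x) / H)) := by
  obtain ⟨-, -, hmz1, -, hmz2, hfin, -⟩ := MS.P4.H30.zfac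
  have hZ : {γ : ℝ | T / 2 < γ ∧ γ < 4 * T ∧ riemannZeta (1 / 2 + γ * I) = 0}.Finite :=
    (hfin (4 * T)).subset fun γ hγ => ⟨by linarith [hγ.1], hγ.2.1.le, hγ.2.2⟩
  let g : ℝ → ℝ := fun γ => ‖deriv riemannZeta (1 / 2 + γ * I)‖ *
    Real.exp (1 - Real.cosh ((γ - x) / H))
  have hg0 : ∀ γ, 0 ≤ g γ := fun γ => by positivity
  unfold SSK
  rw [finsum_mem_eq_finite_toFinset_sum _ hZ]
  refine (norm_sum_le _ _).trans ?_
  have hterm : ∀ γ ∈ hZ.toFinset, ‖(mz γ : ℂ) * deriv riemannZeta (1 / 2 + γ * I) *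
      om0 δ (1 / 2 + γ * I) * GK H x (1 / 2 + γ * I)‖ ≤ (if γ ∈ F then g γ else 0) := by
    intro γ hγ
    rw [Set.Finite.mem_toFinset] at hγ
    obtain ⟨h1, h2, h3⟩ := hγ
    by_cases hm : 2 ≤ mz γ
    · rw [hmz2 γ hm]
      split_ifs
      · simpa using hg0 γ
      · simp
    · have hm1 : mz γ = 1 := le_antisymm (by omega) (hmz1 γ h3)
      have hγ0 : 0 ≤ γ := by linarith
      have e1 : ‖om0 δ (1 / 2 + γ * I)‖ ≤ 1 := hG.1 δ γ hδ0 hγ0
      rw [if_pos (hF γ h1 h2 hm1), norm_mul, norm_mul, norm_mul, Complex.norm_natCast, hm1,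
        Nat.cast_one, one_mul, norm_GK_line]
      refine mul_le_mul_of_nonneg_right ?_ (Real.exp_nonneg _)
      exact mul_le_of_le_one_right (norm_nonneg _) e1
  refine (Finset.sum_le_sum hterm).trans ?_
  rw [← Finset.sum_filter]
  refine Finset.sum_le_sum_of_subset_of_nonneg (fun γ hγ => (Finset.mem_filter.1 hγ).2)
    fun γ _ _ => hg0 γ

theorem sq_le_cosh (y : ℝ) : 1 + y ^ 2 / 2 ≤ Real.cosh y := by
  have h1 : Real.cosh y = Real.cosh (2 * (y / 2)) := by
    congr 1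
    ring
  rw [h1, Real.cosh_two_mul, Real.cosh_sq]
  have h2 : (y / 2) ^ 2 ≤ Real.sinh (y / 2) ^ 2 := by
    rw [← sq_abs (y / 2), ← sq_abs (Real.sinh (y / 2))]
    refine pow_le_pow_left₀ (abs_nonneg _) ?_ 2
    rcases le_total 0 (y / 2) with h | h
    · rw [abs_of_nonneg h, abs_of_nonneg (Real.sinh_nonneg_iff.2 h)]
      exact Real.self_le_sinh_iff.2 h
    · rw [abs_of_nonpos h, abs_of_nonpos (Real.sinh_nonpos_iff.2 h)]
      exact neg_le_neg (Real.sinh_le_self_iff.2 h)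
  nlinarith

/-- The window is at most the Gaussian window. -/
theorem near_le {H : ℝ} (hH : 0 < H) (y : ℝ) :
    Real.exp (1 - Real.cosh (y / H)) ≤ Real.exp (-(y ^ 2 / (2 * H ^ 2))) := by
  refine Real.exp_le_exp.2 ?_
  have h1 := sq_le_cosh (y / H)
  have h2 : (y / H) ^ 2 / 2 = y ^ 2 / (2 * H ^ 2) := by
    field_simp
  linarith

/-- The window far away. -/
theorem far_le {H rho r y : ℝ} (hH : 0 < H) (hrho : 0 ≤ rho) (hy : rho * H ≤ |y|)
    (hr : 3 / 4 * r ^ 2 + 1 ≤ Real.cosh rho) :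
    Real.exp (1 - Real.cosh (y / H)) ≤
      Real.exp (-(3 / 8 * r ^ 2)) * Real.exp (-(y ^ 2 / (2 * (2 * H) ^ 2))) := by
  rw [← Real.exp_add]
  refine Real.exp_le_exp.2 ?_
  have h1 := sq_le_cosh (y / H)
  have h2 : (y / H) ^ 2 / 2 = 4 * (y ^ 2 / (2 * (2 * H) ^ 2)) := by
    field_simp
    ring
  have h3 : Real.cosh rho ≤ Real.cosh (y / H) := by
    rw [Real.cosh_le_cosh, abs_of_nonneg hrho, abs_div, abs_of_pos hH, le_div_iff₀ hH]
    exact hy
  have h4 : 0 ≤ y ^ 2 / (2 * (2 * H) ^ 2) := by positivity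
  linarith

/-- The sum over a finite set of simple zeros, from the near and the far ones. -/
theorem split9 {H rho r x t s : ℝ} (hH : 0 < H) (hrho : 0 ≤ rho) (F G : Finset ℝ)
    (hx : |x - t| + rho * H ≤ s) (hF : ∀ γ ∈ G, |γ - t| < s → γ ∈ F)
    (hr : 3 / 4 * r ^ 2 + 1 ≤ Real.cosh rho) :
    ∑ γ ∈ F ∪ G, ‖deriv riemannZeta (1 / 2 + γ * I)‖ * Real.exp (1 - Real.cosh ((γ - x) / H)) ≤
      ∑ γ ∈ F, ‖deriv riemannZeta (1 / 2 + γ * I)‖ * Real.exp (-((γ - x) ^ 2 / (2 * H ^ 2))) +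
        far G H r x := by
  rw [← Finset.union_sdiff_self_eq_union, Finset.sum_union Finset.disjoint_sdiff]
  refine add_le_add (Finset.sum_le_sum fun γ _ =>
    mul_le_mul_of_nonneg_left (near_le hH _) (norm_nonneg _)) ?_
  unfold far
  rw [Finset.mul_sum]
  refine (Finset.sum_le_sum (g := fun γ : ℝ => Real.exp (-(3 / 8 * r ^ 2)) *
    (‖deriv riemannZeta (1 / 2 + γ * I)‖ * Real.exp (-((γ - x) ^ 2 / (2 * (2 * H) ^ 2)))))
    fun γ hγ => ?_).trans
    (Finset.sum_le_sum_of_subset_of_nonneg Finset.sdiff_subset fun γ _ _ => by positivity)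
  rw [Finset.mem_sdiff] at hγ
  have h1 : s ≤ |γ - t| := by
    by_contra h
    exact hγ.2 (hF γ hγ.1 (not_le.1 h))
  have h2 : rho * H ≤ |γ - x| := by
    have := abs_sub_le γ x t
    linarith
  have h3 := far_le hH hrho h2 hr
  have e1 : Real.exp (-(3 / 8 * r ^ 2)) *
      (‖deriv riemannZeta (1 / 2 + γ * I)‖ * Real.exp (-((γ - x) ^ 2 / (2 * (2 * H) ^ 2)))) =
      ‖deriv riemannZeta (1 / 2 + γ * I)‖ * (Real.exp (-(3 / 8 * r ^ 2)) *
        Real.exp (-((γ - x) ^ 2 / (2 * (2 * H) ^ 2)))) := by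
    ring
  rw [e1]
  exact mul_le_mul_of_nonneg_left h3 (norm_nonneg _)

/-- The numbers. -/
theorem nums9 {L l lam H : ℝ} (hl : l = Real.log L) (hL : 1 ≤ L) (h1 : 60 ≤ l) (hH : 0 < H)
    (h3 : 2 * H * Real.log l ≤ lam) :
    3 / 4 * Real.sqrt (8 * l) ^ 2 + 1 ≤ Real.cosh (lam / H) ∧
      Real.exp (-(3 / 8 * Real.sqrt (8 * l) ^ 2)) = (L ^ 3)⁻¹ := by
  have hl0 : 0 < l := by linarith
  rw [Real.sq_sqrt (by linarith)]
  constructor
  · have e1 : 2 * Real.log l ≤ lam / H := by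
      rw [le_div_iff₀ hH]
      linarith
    have e2 : l ^ 2 ≤ Real.exp (lam / H) := by
      refine le_trans (le_of_eq ?_) (Real.exp_le_exp.2 e1)
      have e3 : (2 : ℝ) * Real.log l = ((2 : ℕ) : ℝ) * Real.log l := by norm_num
      rw [e3, Real.exp_nat_mul, Real.exp_log hl0]
    have e4 : Real.exp (lam / H) / 2 ≤ Real.cosh (lam / H) := by
      rw [Real.cosh_eq]
      have := Real.exp_pos (-(lam / H))
      linarith
    nlinarith
  · have e1 : -(3 / 8 * (8 * l)) = -Real.log (L ^ 3) := by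
      rw [Real.log_pow, hl]
      push_cast
      ring
    rw [e1, Real.exp_neg, Real.exp_log (by positivity)]

theorem alg9 {c ε₀ lam L H T Cb : ℝ} (hc : 0 < c) (hlam : 0 < lam) (hL : 0 < L) (hH : 0 < H) :
    Cb * lam ^ 2 * H ^ 2 * (ε₀ * T * L ^ 4) / (lam * (c * H * L ^ 2)) ^ 2 =
      Cb * ε₀ / c ^ 2 * T := by
  field_simp

end Pool.Agent.Lib.MP_6bc78b_nt.GP.H27K
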