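import Pool.Agent.Lib.MP_6bc78b_nt.GP.H91.Defs6
import Pool.Agent.Lib.MP_6bc78b_nt.MS.P4.H30.Zfac

/-! Project GP6, module FIN6: from the measure of the centres with few simple zeros to the number
of simple zeros in almost all windows. -/

set_option autoImplicit false

open Complex Filter Topology MeasureTheory ArithmeticFunction Set
open scoped ENNReal

namespace Pool.Agent.Lib.MP_6bc78b_nt.GP.H27F

open Pool.Agent.Lib.MP_6bc78b_nt Pool.Agent.Lib.MP_6bc78b_nt.MS Pool.Agent.Lib.MP_6bc78b_nt.MS.P1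

theorem zero_of_zeroMult {γ : ℝ} (h : zeroMult γ = 1) : riemannZeta (1 / 2 + γ * I) = 0 := by
  by_contra h1
  have h2 : analyticOrderAt riemannZeta (1 / 2 + γ * I) = 0 :=
    (MS.P4.H30.zeta_analyticAt γ).analyticOrderAt_eq_zero.2 h1
  rw [MS.P4.H30.order_eq_mz, MS.P4.H30.mz_eq, h] at h2
  exact absurd h2 (by norm_num)

theorem win_fin (a b : ℝ) : {γ : ℝ | a < γ ∧ γ < b ∧ zeroMult γ = 1}.Finite := by
  refine (H11.zeros_in_compact_finite (|a| + |b|)).subset ?_
  rintro γ ⟨h1, h2, h3⟩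
  refine ⟨?_, zero_of_zeroMult h3⟩
  rw [abs_le]
  constructor
  · linarith [neg_abs_le a, abs_nonneg b]
  · linarith [le_abs_self b, abs_nonneg a]

/-- Halving. -/
theorem halve {B : Set ℝ} {m K : ℝ} (hK : 0 ≤ K) (hm : 0 < m) {Y' : ℝ}
    (hbl : ∀ X : ℝ, m / 2 ≤ X → 2 * X ≤ Y' →
      volume (B ∩ Set.Icc X (2 * X)) ≤ ENNReal.ofReal (K * X)) :
    ∀ (n : ℕ) (Y : ℝ), 0 ≤ Y → Y ≤ Y' → Y < 2 ^ n * m →
      volume (B ∩ Set.Icc m Y) ≤ ENNReal.ofReal (K * Y) := by
  intro n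
  induction n with
  | zero =>
    intro Y hY hYY hYm
    rw [pow_zero, one_mul] at hYm
    rw [Set.Icc_eq_empty (not_le.2 hYm), Set.inter_empty, measure_empty]
    exact bot_le
  | succ n ih =>
    intro Y hY hYY hYm
    by_cases hc : Y < m
    · rw [Set.Icc_eq_empty (not_le.2 hc), Set.inter_empty, measure_empty]
      exact bot_le
    · push Not at hc
      have h1 := ih (Y / 2) (by linarith) (by linarith) (by rw [pow_succ] at hYm; linarith)
      have h2 := hbl (Y / 2) (by linarith) (by linarith)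
      have h3 : B ∩ Set.Icc m Y ⊆ (B ∩ Set.Icc m (Y / 2)) ∪
          (B ∩ Set.Icc (Y / 2) (2 * (Y / 2))) := by
        rintro s ⟨hs, hs1, hs2⟩
        by_cases h : s ≤ Y / 2
        · exact Or.inl ⟨hs, hs1, h⟩
        · exact Or.inr ⟨hs, (not_le.1 h).le, by linarith⟩
      refine (measure_mono h3).trans ((measure_union_le _ _).trans ?_)
      refine (add_le_add h1 h2).trans ?_
      have h4 : 0 ≤ K * (Y / 2) := by positivity
      rw [← ENNReal.ofReal_add h4 h4]
      exact ENNReal.ofReal_le_ofReal (by linarith)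

/-- FIN6. -/
theorem fin6 (h : CHB6Statement) : CountStatement6 := by
  intro hRH
  obtain ⟨c, C, C0, T0, hc, hC, hC0, hT0, H⟩ := h hRH
  refine ⟨c / 40, 80 * C + 40 * C0 + 8 * T0 + 1, by positivity, by positivity, ?_⟩
  intro T w η hT hw hwT hη
  set C' := 80 * C + 40 * C0 + 8 * T0 + 1 with hC'
  have hC'1 : 1 ≤ C' := by
    have : 0 ≤ 80 * C + 40 * C0 + 8 * T0 := by positivity
    linarith
  have hl2 : (1 : ℝ) / 2 ≤ Real.log 2 := by have := Real.log_two_gt_d9; linarith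
  have hlog : 1 / 2 ≤ Real.log T := hl2.trans (Real.log_le_log (by norm_num) hT)
  set L := Real.log T with hL
  have hTpos : 0 < T := by linarith
  have hL0 : 0 < L := by linarith
  have hLw : 0 ≤ L / w := by positivity
  -- the trivial bound
  by_cases htriv : 1 ≤ C' * (L / w + η)
  · have h1 : volume {t : ℝ | 0 ≤ t ∧ t ≤ T ∧
        (({γ : ℝ | t < γ ∧ γ < t + w ∧ zeroMult γ = 1}.ncard : ℕ) : ℝ) ≤ c / 40 * η * w} ≤
        volume (Set.Icc 0 T) := measure_mono fun t ht => ⟨ht.1, ht.2.1⟩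
    refine h1.trans ?_
    rw [Real.volume_Icc, sub_zero]
    apply ENNReal.ofReal_le_ofReal
    have h2 : T * 1 ≤ T * (C' * (L / w + η)) := mul_le_mul_of_nonneg_left htriv hTpos.le
    linarith
  push Not at htriv
  have hLw1 : C' * (L / w) < 1 := by
    have : 0 ≤ C' * η := by positivity
    linarith [mul_add C' (L / w) η]
  have hw1 : C' * L < w := by
    rw [← mul_div_assoc, div_lt_one hw] at hLw1
    exact hLw1
  have hCL : ∀ x : ℝ, 0 ≤ x → x ≤ C' → x * L ≤ w := fun x _ hx => by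
    have : x * L ≤ C' * L := mul_le_mul_of_nonneg_right hx hL0.le
    linarith
  have hwT0 : 4 * T0 ≤ w := by
    have h1 := hCL (8 * T0) (by positivity) (by
      have : 0 ≤ 80 * C + 40 * C0 := by positivity
      linarith)
    nlinarith
  have hwC0 : C0 * L ≤ w / 40 := by
    have h1 := hCL (40 * C0) (by positivity) (by
      have : 0 ≤ 80 * C + 8 * T0 := by positivity
      linarith)
    linarith
  -- the centres
  set B : Set ℝ := {s : ℝ | (({γ : ℝ | |γ - s| < 2 * (w / 40) ∧ mz γ = 1}.ncard : ℕ) : ℝ) ≤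
    c * η * (w / 40)} with hB
  have hsub : {t : ℝ | 0 ≤ t ∧ t ≤ T ∧
        (({γ : ℝ | t < γ ∧ γ < t + w ∧ zeroMult γ = 1}.ncard : ℕ) : ℝ) ≤ c / 40 * η * w} ⊆
      (fun t => t + w / 2) ⁻¹' (B ∩ Set.Icc (w / 2) (3 / 2 * T)) := by
    rintro t ⟨ht0, ht1, ht2⟩
    refine ⟨?_, by linarith, by linarith⟩
    have h1 : {γ : ℝ | |γ - (t + w / 2)| < 2 * (w / 40) ∧ mz γ = 1} ⊆
        {γ : ℝ | t < γ ∧ γ < t + w ∧ zeroMult γ = 1} := by
      rintro γ ⟨h1, h2⟩
      rw [abs_lt] at h1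
      exact ⟨by linarith [h1.1], by linarith [h1.2], by rw [← MS.P4.H30.mz_eq]; exact h2⟩
    have h2 : (({γ : ℝ | |γ - (t + w / 2)| < 2 * (w / 40) ∧ mz γ = 1}.ncard : ℕ) : ℝ) ≤
        (({γ : ℝ | t < γ ∧ γ < t + w ∧ zeroMult γ = 1}.ncard : ℕ) : ℝ) :=
      Nat.cast_le.2 (Set.ncard_le_ncard h1 (win_fin t (t + w)))
    show (({γ : ℝ | |γ - (t + w / 2)| < 2 * (w / 40) ∧ mz γ = 1}.ncard : ℕ) : ℝ) ≤
      c * η * (w / 40)
    have h3 : c / 40 * η * w = c * η * (w / 40) := by ring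
    linarith
  refine (measure_mono hsub).trans ?_
  rw [measure_preimage_add_right]
  set K := C * (40 * L / w + η) with hK
  have hK0 : 0 ≤ K := by positivity
  have hblock : ∀ X : ℝ, w / 2 / 2 ≤ X → 2 * X ≤ 3 / 2 * T →
      volume (B ∩ Set.Icc X (2 * X)) ≤ ENNReal.ofReal (K * X) := by
    intro X hX hXT
    have hX0 : 0 < X := by linarith
    have hlX : Real.log X ≤ L := Real.log_le_log hX0 (by linarith)
    have h1 := H X (w / 40) η (by linarith) (by
      have : C0 * Real.log X ≤ C0 * L := mul_le_mul_of_nonneg_left hlX (by linarith)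
      linarith) (by linarith) hη
    refine (measure_mono ?_).trans (h1.trans (ENNReal.ofReal_le_ofReal ?_))
    · rintro s ⟨hs, hs1, hs2⟩
      exact ⟨hs1, hs2, hs⟩
    · have h2 : Real.log X / (w / 40) ≤ 40 * L / w := by
        rw [div_le_div_iff₀ (by positivity) hw]
        nlinarith
      have h3 : C * X * (Real.log X / (w / 40) + η) ≤ C * X * (40 * L / w + η) :=
        mul_le_mul_of_nonneg_left (by linarith) (by positivity)
      refine h3.trans (le_of_eq ?_)
      rw [hK]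
      ring
  obtain ⟨n, hn⟩ : ∃ n : ℕ, 3 / 2 * T < 2 ^ n * (w / 2) := by
    obtain ⟨n, hn⟩ := pow_unbounded_of_one_lt (3 / 2 * T / (w / 2)) (by norm_num : (1 : ℝ) < 2)
    refine ⟨n, ?_⟩
    rwa [div_lt_iff₀ (by positivity)] at hn
  refine (halve hK0 (by positivity) hblock n (3 / 2 * T) (by positivity) le_rfl hn).trans ?_
  apply ENNReal.ofReal_le_ofReal
  have h1 : K * (3 / 2 * T) = C * T * (60 * (L / w) + 3 / 2 * η) := by
    rw [hK]
    ring
  have h2 : C' * T * (L / w + η) = T * (C' * (L / w)) + T * (C' * η) := by ring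
  have h3 : C * T * (60 * (L / w) + 3 / 2 * η) = T * (60 * C * (L / w)) + T * (3 / 2 * C * η) := by
    ring
  rw [h1, h2, h3]
  have h4 : 60 * C ≤ C' := by
    have : 0 ≤ 20 * C + 40 * C0 + 8 * T0 := by positivity
    linarith
  have h5 : 3 / 2 * C ≤ C' := by linarith
  have h6 : 60 * C * (L / w) ≤ C' * (L / w) := mul_le_mul_of_nonneg_right h4 hLw
  have h7 : 3 / 2 * C * η ≤ C' * η := mul_le_mul_of_nonneg_right h5 hη.le
  exact add_le_add (mul_le_mul_of_nonneg_left h6 hTpos.le) (mul_le_mul_of_nonneg_left h7 hTpos.le)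

end Pool.Agent.Lib.MP_6bc78b_nt.GP.H27F
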