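import Pool.Agent.Lib.MP_6bc78b_nt.GP.H3.Defs8

/-! Project GP8, module MEL8: assembly on the `t`-side. -/

set_option autoImplicit false

open Complex Filter Topology MeasureTheory ArithmeticFunction Set
open scoped ENNReal

namespace Pool.Agent.Lib.MP_6bc78b_nt.GP.H27M

open Pool.Agent.Lib.MP_6bc78b_nt.MS Pool.Agent.Lib.MP_6bc78b_nt.MS.P1
  Pool.Agent.Lib.MP_6bc78b_nt.GP.G7 Pool.Agent.Lib.MP_6bc78b_nt.GP.G8

theorem Wq_mono {P Q Q' : ℝ} (h : Q ≤ Q') : Wq P Q ≤ Wq P Q' := by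
  unfold Wq
  apply Finset.sum_le_sum_of_subset_of_nonneg
  · intro q hq
    simp only [qs, Finset.mem_filter, Finset.mem_range] at hq ⊢
    refine ⟨?_, hq.2⟩
    have := Nat.floor_le_floor h
    omega
  · intro q _ _
    positivity

theorem exp_nb {P κ : ℝ} {K : ℕ} (hP : 1 ≤ P) (hκ : 0 < κ) :
    P ^ K ≤ Real.exp (κ * nb P κ K) ∧ Real.exp (κ * nb P κ K) ≤ P ^ K * Real.exp κ := by
  have hP0 : 0 < P := by linarith
  have hl : 0 ≤ Real.log P := Real.log_nonneg hP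
  have h1 : Real.exp (K * Real.log P) = P ^ K := by rw [Real.exp_nat_mul, Real.exp_log hP0]
  have h2 : (K * Real.log P / κ) ≤ nb P κ K := Nat.le_ceil _
  have h3 : (nb P κ K : ℝ) < K * Real.log P / κ + 1 := Nat.ceil_lt_add_one (by positivity)
  have h4 : κ * (K * Real.log P / κ) = K * Real.log P := by field_simp
  constructor
  · rw [← h1]
    apply Real.exp_le_exp.2
    rw [← h4]
    exact mul_le_mul_of_nonneg_left h2 hκ.le
  · rw [← h1, ← Real.exp_add]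
    apply Real.exp_le_exp.2
    have h5 := mul_le_mul_of_nonneg_left h3.le hκ.le
    rw [mul_add, h4, mul_one] at h5
    exact h5

theorem le_QE {P κ : ℝ} {K : ℕ} (hP : 1 ≤ P) (hκ : 0 < κ) : P ^ K ≤ QE P κ K := by
  have h1 := (exp_nb (K := K) hP hκ).1
  have h2 : Real.exp (κ * nb P κ K) ≤ P * Real.exp (κ * nb P κ K) :=
    le_mul_of_one_le_left (Real.exp_pos _).le hP
  exact h1.trans h2

theorem QE_le {P κ : ℝ} {K : ℕ} (hP : 1 ≤ P) (hκ : 0 < κ) (hκ1 : κ ≤ 1) :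
    QE P κ K ≤ 3 * P ^ (K + 1) := by
  have h1 := (exp_nb (K := K) hP hκ).2
  have h2 : P * Real.exp (κ * nb P κ K) ≤ P * (P ^ K * Real.exp κ) :=
    mul_le_mul_of_nonneg_left h1 (by linarith)
  have h3 : Real.exp κ ≤ 3 := by
    have := Real.exp_le_exp.2 hκ1
    have h4 := Real.exp_one_lt_d9
    linarith
  have h4 : P * (P ^ K * Real.exp κ) ≤ P * (P ^ K * 3) :=
    mul_le_mul_of_nonneg_left (mul_le_mul_of_nonneg_left h3 (by positivity)) (by linarith)
  have h5 : P * (P ^ K * 3) = 3 * P ^ (K + 1) := by ring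
  exact (h2.trans h4).trans h5.le

theorem Wb_ge {P κ w : ℝ} {K : ℕ} (hP : 1 ≤ P) (hκ : 0 < κ) (hw : w ≤ Wq P (P ^ K)) :
    w ≤ Wb P κ K := hw.trans (Wq_mono (le_QE hP hκ))

theorem tendsto_ll : Tendsto (fun T : ℝ => Real.log (Real.log T)) atTop atTop :=
  Real.tendsto_log_atTop.comp Real.tendsto_log_atTop

theorem tendsto_lll : Tendsto (fun T : ℝ => Real.log (Real.log (Real.log T))) atTop atTop :=
  Real.tendsto_log_atTop.comp tendsto_ll

/-- Large `T`. -/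
theorem ev8 (P0 η : ℝ) (K : ℕ) (hη : 0 < η) : ∃ T1 : ℝ, 10 < T1 ∧ ∀ T : ℝ, T1 ≤ T →
    3 ≤ Real.log (Real.log (Real.log T)) ∧ P0 ≤ PA T ∧ P0 ≤ PB T ∧ 3 ≤ PA T ∧ 3 ≤ PB T ∧
    PA T ≤ PB T ∧ 3 * PB T ^ (K + 1) ≤ T ^ (η / 8) := by
  have e1 : ∀ᶠ T : ℝ in atTop, max 3 P0 ≤ Real.log (Real.log (Real.log T)) :=
    tendsto_lll.eventually_ge_atTop _
  have e2 : ∀ᶠ T : ℝ in atTop, max 3 P0 ≤ Real.log (Real.log T) :=
    tendsto_ll.eventually_ge_atTop _
  have e3 : ∀ᶠ T : ℝ in atTop, (3 : ℝ) ≤ Real.log T := Real.tendsto_log_atTop.eventually_ge_atTop _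
  have e4 := (isLittleO_log_rpow_rpow_atTop (s := η / 8) ((16 * (K + 1) : ℕ) : ℝ)
    (by positivity)).bound (c := 1 / 3) (by norm_num)
  have e5 := e1.and (e2.and (e3.and (e4.and (eventually_gt_atTop (10 : ℝ)))))
  obtain ⟨T1, h1⟩ := eventually_atTop.1 e5
  refine ⟨max T1 11, lt_of_lt_of_le (by norm_num) (le_max_right _ _), fun T hT => ?_⟩
  obtain ⟨a1, a2, a3, a4, a5⟩ := h1 T ((le_max_left _ _).trans hT)
  have b1 : 3 ≤ Real.log (Real.log (Real.log T)) := (le_max_left _ _).trans a1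
  have b1' : P0 ≤ Real.log (Real.log (Real.log T)) := (le_max_right _ _).trans a1
  have b2 : 3 ≤ Real.log (Real.log T) := (le_max_left _ _).trans a2
  have b2' : P0 ≤ Real.log (Real.log T) := (le_max_right _ _).trans a2
  have c1 : Real.log (Real.log (Real.log T)) ≤ PA T := le_self_pow₀ (by linarith) (by norm_num)
  have c2 : Real.log (Real.log T) ≤ PB T := le_self_pow₀ (by linarith) (by norm_num)
  have c3 : Real.log (Real.log (Real.log T)) ≤ Real.log (Real.log T) :=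
    (Real.log_le_sub_one_of_pos (by linarith)).trans (by linarith)
  have c4 : Real.log (Real.log T) ≤ Real.log T :=
    (Real.log_le_sub_one_of_pos (by linarith)).trans (by linarith)
  refine ⟨b1, b1'.trans c1, b2'.trans c2, b1.trans c1, b2.trans c2, ?_, ?_⟩
  · have d1 : PA T ≤ Real.log (Real.log T) ^ 3 := pow_le_pow_left₀ (by linarith) c3 3
    have d2 : Real.log (Real.log T) ^ 3 ≤ PB T := pow_le_pow_right₀ (by linarith) (by norm_num)
    exact d1.trans d2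
  · rw [Real.rpow_natCast, Real.norm_of_nonneg (by positivity),
      Real.norm_of_nonneg (Real.rpow_nonneg (by linarith) _)] at a4
    have d1 : PB T ^ (K + 1) = Real.log (Real.log T) ^ (16 * (K + 1)) := by
      unfold PB
      rw [← pow_mul]
    have d2 : Real.log (Real.log T) ^ (16 * (K + 1)) ≤ Real.log T ^ (16 * (K + 1)) :=
      pow_le_pow_left₀ (by linarith) c4 _
    rw [d1]
    linarith

theorem meas_sum (s : Finset ℕ) (c : ℕ → ℂ) :
    Measurable fun t : ℝ => ∑ n ∈ s, c n * (n : ℂ) ^ (-(1 + t * I : ℂ)) := by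
  refine Finset.measurable_fun_sum _ fun n _ => ?_
  have h1 : Measurable fun t : ℝ => (-(1 + t * I : ℂ)) := by fun_prop
  exact (h1.const_pow (n : ℂ)).const_mul (c n)

theorem meas_Dp (ε η T : ℝ) : Measurable fun t : ℝ => Dp ε η T t := meas_sum _ _

theorem meas_Mb (ε η y T : ℝ) : Measurable fun t : ℝ => Mb ε η y T t := meas_sum _ _

theorem meas_Qb (P κ : ℝ) (v : ℕ) : Measurable fun t : ℝ => Qb P κ v t := by
  have h := meas_sum (qs (yb P κ v) (yb P κ (v + 1))) (fun _ => 1)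
  have h2 : (fun t : ℝ => Qb P κ v t) = fun t : ℝ =>
      ∑ n ∈ qs (yb P κ v) (yb P κ (v + 1)), (1 : ℂ) * (n : ℂ) ^ (-(1 + t * I : ℂ)) := by
    funext t
    unfold Qb Qp
    exact Finset.sum_congr rfl fun n _ => (one_mul _).symm
  rw [h2]
  exact h

theorem meas_Fb (ε η κ : ℝ) (K : ℕ) (P T : ℝ) : Measurable fun t : ℝ => Fb ε η κ K P T t := by
  unfold Fb
  exact (Finset.measurable_fun_sum _ fun v _ =>
    (meas_Qb P κ v).mul (meas_Mb ε η (yb P κ v) T)).const_mul _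

theorem rho_le {a b T lam2 h t : ℝ} : rho a b T lam2 h t ≤ Real.exp (-(a * h / T * |t|)) := by
  unfold rho
  exact mul_le_of_le_one_left (Real.exp_pos _).le (min_le_left _ _)

/-- One factorised part. -/
theorem part {a b ε η κ : ℝ} {K : ℕ} {P T h X Y : ℝ} (S : Set ℝ) (hX : 0 ≤ X) (hY : 0 ≤ Y)
    (h1 : ∫⁻ t : ℝ, ENNReal.ofReal (‖Dp ε η T t - Fb ε η κ K P T t‖ ^ 2 *
        Real.exp (-(a * h / T * |t|))) ≤ ENNReal.ofReal X)
    (h2 : ∫⁻ t in S, ENNReal.ofReal (‖Fb ε η κ K P T t‖ ^ 2 * Real.exp (-(a * h / T * |t|))) ≤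
      ENNReal.ofReal Y) :
    ∫⁻ t in S, ENNReal.ofReal (‖Dp ε η T t‖ ^ 2 * rho a b T (Real.log T ^ 2) h t) ≤
      ENNReal.ofReal (2 * X + 2 * Y) := by
  have hm : Measurable fun t : ℝ => ENNReal.ofReal (‖Dp ε η T t - Fb ε η κ K P T t‖ ^ 2 *
      Real.exp (-(a * h / T * |t|))) := by
    refine ENNReal.measurable_ofReal.comp (Measurable.mul ?_ (by fun_prop))
    exact (((meas_Dp ε η T).sub (meas_Fb ε η κ K P T)).norm).pow_const 2
  have hpt : ∀ t : ℝ, ENNReal.ofReal (‖Dp ε η T t‖ ^ 2 * rho a b T (Real.log T ^ 2) h t) ≤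
      ENNReal.ofReal 2 * ENNReal.ofReal (‖Dp ε η T t - Fb ε η κ K P T t‖ ^ 2 *
        Real.exp (-(a * h / T * |t|))) +
      ENNReal.ofReal 2 * ENNReal.ofReal (‖Fb ε η κ K P T t‖ ^ 2 *
        Real.exp (-(a * h / T * |t|))) := by
    intro t
    rw [← ENNReal.ofReal_mul (by norm_num), ← ENNReal.ofReal_mul (by norm_num),
      ← ENNReal.ofReal_add (by positivity) (by positivity)]
    apply ENNReal.ofReal_le_ofReal
    have e1 : ‖Dp ε η T t‖ ≤ ‖Dp ε η T t - Fb ε η κ K P T t‖ + ‖Fb ε η κ K P T t‖ := by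
      have := norm_add_le (Dp ε η T t - Fb ε η κ K P T t) (Fb ε η κ K P T t)
      rwa [sub_add_cancel] at this
    have e2 : ‖Dp ε η T t‖ ^ 2 ≤ 2 * ‖Dp ε η T t - Fb ε η κ K P T t‖ ^ 2 +
        2 * ‖Fb ε η κ K P T t‖ ^ 2 := by
      have e3 := pow_le_pow_left₀ (norm_nonneg _) e1 2
      nlinarith [sq_nonneg (‖Dp ε η T t - Fb ε η κ K P T t‖ - ‖Fb ε η κ K P T t‖)]
    have e4 : ‖Dp ε η T t‖ ^ 2 * rho a b T (Real.log T ^ 2) h t ≤
        ‖Dp ε η T t‖ ^ 2 * Real.exp (-(a * h / T * |t|)) :=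
      mul_le_mul_of_nonneg_left rho_le (by positivity)
    have e5 := mul_le_mul_of_nonneg_right e2 (Real.exp_pos (-(a * h / T * |t|))).le
    refine (e4.trans e5).trans (le_of_eq ?_)
    ring
  refine (lintegral_mono hpt).trans ?_
  rw [lintegral_add_left (hm.const_mul _), lintegral_const_mul _ hm,
    ENNReal.ofReal_add (by positivity) (by positivity), ENNReal.ofReal_mul (by norm_num),
    ENNReal.ofReal_mul (by norm_num)]
  refine add_le_add (mul_le_mul_right ((setLIntegral_le_lintegral _ _).trans h1) _) ?_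
  rw [lintegral_const_mul' _ _ ENNReal.ofReal_ne_top]
  exact mul_le_mul_right h2 _

/-- **MEL8.** -/
theorem mel8 (hD : DEC8Statement) (hS : SML8Statement) (hG : GOOD8Statement)
    (hH : HIGH8Statement) (hM : MED8Statement) (hMer : MERXStatement) : MEL8Statement := by
  intro hRH a b ε η δ ha hab hε hε1 hη hη1 hδ
  obtain ⟨C1, hC1, HD⟩ := hD a ε ha hε hε1
  obtain ⟨C2, hC2, HG⟩ := hG a ε ha hε hε1
  -- the parameters
  obtain ⟨κ, hκ0, hκ1, hκ2⟩ : ∃ κ : ℝ, 0 < κ ∧ κ ≤ 1 / 2 ∧ 2 * C1 * κ ≤ δ / 20 := by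
    refine ⟨min (1 / 2) (δ / (40 * C1)), lt_min (by norm_num) (by positivity), min_le_left _ _, ?_⟩
    have h1 : min (1 / 2) (δ / (40 * C1)) ≤ δ / (40 * C1) := min_le_right _ _
    have h2 : 2 * C1 * min (1 / 2) (δ / (40 * C1)) ≤ 2 * C1 * (δ / (40 * C1)) :=
      mul_le_mul_of_nonneg_left h1 (by positivity)
    have h3 : 2 * C1 * (δ / (40 * C1)) = δ / 20 := by
      field_simp
      norm_num
    linarith
  obtain ⟨c, hc0, hc1, hc2⟩ : ∃ c : ℝ, 0 < c ∧ c < 1 ∧ 2 * C2 * c ≤ δ / 20 := by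
    refine ⟨min (1 / 2) (δ / (40 * C2)), lt_min (by norm_num) (by positivity),
      lt_of_le_of_lt (min_le_left _ _) (by norm_num), ?_⟩
    have h1 : min (1 / 2) (δ / (40 * C2)) ≤ δ / (40 * C2) := min_le_right _ _
    have h2 : 2 * C2 * min (1 / 2) (δ / (40 * C2)) ≤ 2 * C2 * (δ / (40 * C2)) :=
      mul_le_mul_of_nonneg_left h1 (by positivity)
    have h3 : 2 * C2 * (δ / (40 * C2)) = δ / 20 := by
      field_simp
      norm_num
    linarith
  obtain ⟨w, hw1, hw2⟩ : ∃ w : ℝ, 1 ≤ w ∧ 2 * C1 * (1 / w) ≤ δ / 20 := by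
    refine ⟨max 1 (40 * C1 / δ), le_max_left _ _, ?_⟩
    have h1 : 40 * C1 / δ ≤ max 1 (40 * C1 / δ) := le_max_right _ _
    have h0 : 0 < max 1 (40 * C1 / δ) := lt_of_lt_of_le one_pos (le_max_left _ _)
    rw [div_le_iff₀ hδ] at h1
    rw [mul_one_div, div_le_div_iff₀ h0 (by norm_num)]
    linarith
  obtain ⟨K, hK, P0, hP0, HW⟩ := hMer w
  obtain ⟨T1, hT1, E⟩ := ev8 P0 η K hη
  have hK1 : 1 ≤ K := by omega
  obtain ⟨T2, hT2, HD⟩ := HD η κ K hη hη1 hκ0 hκ1 hK1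
  obtain ⟨T3, hT3, HG⟩ := HG η κ c K hη hη1 hκ0 hκ1 hc0 hc1 hK1
  obtain ⟨T4, hT4, HS⟩ := hS a b ε η (δ / 5) ha hab hε hε1 hη hη1 (by positivity)
  obtain ⟨T5, hT5, HH⟩ := hH hRH a b ε η κ (δ / 5) K ha hab hε hε1 hη hη1 hκ0 hκ1
    (by positivity) hK1
  obtain ⟨T6, hT6, HM⟩ := hM a ε η κ c (δ / 20) K ha hε hε1 hη hη1 hκ0 hκ1 hc0 hc1
    (by positivity) hK1
  refine ⟨3 * K + 4, max T1 (max T2 (max T3 (max T4 (max T5 T6)))),
    lt_of_lt_of_le hT1 (le_max_left _ _), fun T h hT hh1 hh2 => ?_⟩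
  simp only [max_le_iff] at hT
  obtain ⟨t1, t2, t3, t4, t5, t6⟩ := hT
  obtain ⟨l3, pA, pB, pA3, pB3, pAB, pT⟩ := E T t1
  have hT0 : 1 ≤ T := by linarith
  have hh0 : 1 ≤ h := (one_le_pow₀ (by linarith)).trans hh1
  have wA : w ≤ Wb (PA T) κ K := Wb_ge (by linarith) hκ0 (HW _ pA)
  have wB : w ≤ Wb (PB T) κ K := Wb_ge (by linarith) hκ0 (HW _ pB)
  have qB : QE (PB T) κ K ≤ T ^ (η / 8) := (QE_le (by linarith) hκ0 (by linarith)).trans pT
  have qA : QE (PA T) κ K ≤ T ^ (η / 8) := by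
    refine (QE_le (by linarith) hκ0 (by linarith)).trans (le_trans ?_ pT)
    exact mul_le_mul_of_nonneg_left (pow_le_pow_left₀ (by linarith) pAB _) (by norm_num)
  have qh : QE (PA T) κ K ≤ h := by
    refine (QE_le (by linarith) hκ0 (by linarith)).trans (le_trans ?_ hh1)
    have h1 : PA T ^ (K + 1) = Real.log (Real.log (Real.log T)) ^ (3 * K + 3) := by
      unfold PA
      rw [← pow_mul]
      congr 1
    rw [h1, pow_succ _ (3 * K + 3), mul_comm]
    exact mul_le_mul_of_nonneg_left l3 (by positivity)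
  have hL4 : 0 ≤ Real.log T ^ 4 := by positivity
  -- the value of DEC8
  have dec : ∀ P : ℝ, w ≤ Wb P κ K → C1 * (1 / Wb P κ K + κ) * Real.log T ^ 4 ≤
      δ / 20 * Real.log T ^ 4 := by
    intro P hP
    apply mul_le_mul_of_nonneg_right _ hL4
    have h1 : 1 / Wb P κ K ≤ 1 / w := one_div_le_one_div_of_le (by linarith) hP
    have h2 : C1 * (1 / Wb P κ K + κ) ≤ C1 * (1 / w + κ) :=
      mul_le_mul_of_nonneg_left (by linarith) hC1.le
    linarith
  have DA := (HD T h (PA T) t2 hh0 hh2 (by linarith) qA (by linarith)).trans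
    (ENNReal.ofReal_le_ofReal (dec _ wA))
  have DB := (HD T h (PB T) t2 hh0 hh2 (by linarith) qB (by linarith)).trans
    (ENNReal.ofReal_le_ofReal (dec _ wB))
  have GA := (HG T h t3 qh hh2 (by linarith)).trans (ENNReal.ofReal_le_ofReal
    (show C2 * c * Real.log T ^ 4 ≤ δ / 20 * Real.log T ^ 4 from
      mul_le_mul_of_nonneg_right (by linarith [mul_pos hC2 hc0]) hL4))
  have MB := HM T h t6 hh0 hh2 (by linarith)
  have SA := HS T h t4 hh0 hh2
  have HA := HH T h t5 hh0 hh2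
  have hx : 0 ≤ δ / 20 * Real.log T ^ 4 := by positivity
  have G2 := part (a := a) (b := b) _ hx hx DA GA
  have M2 := part (a := a) (b := b) _ hx hx DB MB
  have hcov : (Set.univ : Set ℝ) ⊆
      ({t : ℝ | |t| ≤ T / Real.log T ^ 6} ∪
        {t : ℝ | T / Real.log T ^ 6 < |t| ∧
          ∃ v < nb (PB T) κ K, VB κ T v < ‖Qb (PB T) κ v t‖ ^ 2}) ∪
      ({t : ℝ | ∀ v < nb (PA T) κ K, ‖Qb (PA T) κ v t‖ ^ 2 ≤ VA c κ K T} ∪
        {t : ℝ | (∃ v < nb (PA T) κ K, VA c κ K T < ‖Qb (PA T) κ v t‖ ^ 2) ∧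
          ∀ v < nb (PB T) κ K, ‖Qb (PB T) κ v t‖ ^ 2 ≤ VB κ T v}) := by
    intro t _
    by_cases h1 : |t| ≤ T / Real.log T ^ 6
    · exact Or.inl (Or.inl h1)
    · by_cases h2 : ∃ v < nb (PB T) κ K, VB κ T v < ‖Qb (PB T) κ v t‖ ^ 2
      · exact Or.inl (Or.inr ⟨not_le.1 h1, h2⟩)
      · push Not at h2
        by_cases h3 : ∀ v < nb (PA T) κ K, ‖Qb (PA T) κ v t‖ ^ 2 ≤ VA c κ K T
        · exact Or.inr (Or.inl h3)
        · push Not at h3
          exact Or.inr (Or.inr ⟨h3, h2⟩)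
  rw [← setLIntegral_univ]
  refine (lintegral_mono_set hcov).trans ?_
  refine (lintegral_union_le _ _ _).trans ?_
  refine (add_le_add ((lintegral_union_le _ _ _).trans (add_le_add SA HA))
    ((lintegral_union_le _ _ _).trans (add_le_add G2 M2))).trans ?_
  have y1 : 0 ≤ δ / 5 * Real.log T ^ 4 := by positivity
  rw [← ENNReal.ofReal_add y1 y1, ← ENNReal.ofReal_add (by positivity) (by positivity),
    ← ENNReal.ofReal_add (by positivity) (by positivity)]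
  apply ENNReal.ofReal_le_ofReal
  nlinarith

end Pool.Agent.Lib.MP_6bc78b_nt.GP.H27M
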