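import Pool.Agent.Lib.MP_6bc78b_nt.GP.H3.Defs10
import Pool.Agent.Lib.MP_6bc78b_nt.GP.H27.Mel8

/-! Project GP10, module MELK: assembly on the `t`-side, with a sequence of scales. -/

set_option autoImplicit false

open Complex Filter Topology MeasureTheory ArithmeticFunction Set
open scoped ENNReal

namespace Pool.Agent.Lib.MP_6bc78b_nt.GP.H27N

open Pool.Agent.Lib.MP_6bc78b_nt.MS Pool.Agent.Lib.MP_6bc78b_nt.MS.P1
  Pool.Agent.Lib.MP_6bc78b_nt.GP.G7 Pool.Agent.Lib.MP_6bc78b_nt.GP.G8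
  Pool.Agent.Lib.MP_6bc78b_nt.GP.G9 Pool.Agent.Lib.MP_6bc78b_nt.GP.G10
  Pool.Agent.Lib.MP_6bc78b_nt.GP.H27M

theorem be_zero : be 0 = 1 / 4 := by
  unfold be
  norm_num

theorem be_lt (k : ℕ) : be k < 7 / 8 := by
  unfold be
  have : 0 < 5 / (8 * ((k : ℝ) + 1)) := by positivity
  linarith

theorem be_nonneg (k : ℕ) : 0 ≤ be k := by
  unfold be
  have h1 : (1 : ℝ) ≤ (k : ℝ) + 1 := by
    have : (0 : ℝ) ≤ k := Nat.cast_nonneg k
    linarith
  have h2 : 5 / (8 * ((k : ℝ) + 1)) ≤ 5 / 8 := by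
    apply div_le_div_of_nonneg_left (by norm_num) (by norm_num)
    linarith
  linarith

theorem be_succ (k : ℕ) : be (k + 1) - be k = dl k := by
  unfold be dl
  have h1 : (k : ℝ) + 1 ≠ 0 := by positivity
  have h2 : (k : ℝ) + 2 ≠ 0 := by positivity
  push_cast
  have h3 : (k : ℝ) + 1 + 1 = k + 2 := by ring
  rw [h3]
  field_simp
  ring

theorem dl_pos (k : ℕ) : 0 < dl k := by
  unfold dl
  positivity

theorem dl_le (k : ℕ) : dl k ≤ 1 := by
  have h1 := be_succ k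
  have h2 := be_lt (k + 1)
  have h3 := be_nonneg k
  linarith

theorem le_yb {P κ : ℝ} (hP : 0 ≤ P) (hκ : 0 ≤ κ) (v : ℕ) : P ≤ yb P κ v := by
  unfold yb
  have h1 : 1 ≤ Real.exp (κ * v) := Real.one_le_exp (by positivity)
  exact le_mul_of_one_le_right hP h1

/-- The integral over a finite union. -/
theorem lint_biUnion {f : ℝ → ℝ≥0∞} (s : Finset ℕ) (A : ℕ → Set ℝ) :
    ∫⁻ t in ⋃ k ∈ s, A k, f t ≤ ∑ k ∈ s, ∫⁻ t in A k, f t := by
  classical
  induction s using Finset.induction_on with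
  | empty => simp
  | insert k s hk ih =>
    rw [Finset.set_biUnion_insert, Finset.sum_insert hk]
    exact (lintegral_union_le _ _ _).trans (add_le_add le_rfl ih)

/-- Large `T`. -/
theorem ev10 (P0 κ0 Q0 η : ℝ) (hη : 0 < η) : ∃ T1 : ℝ, 10 < T1 ∧ ∀ T : ℝ, T1 ≤ T →
    1 ≤ Real.log (Real.log T) ∧ P0 < Real.log (Real.log T) ^ 16 ∧
    Real.log (Real.log T) ^ 16 ≤ Real.log T ∧ Real.log T ≤ Real.sqrt T ∧
    Real.log T ≤ T ^ (η / 8) ∧ 1 / κ0 ≤ Real.log T ∧ Q0 ≤ Real.log T := by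
  have e2 : ∀ᶠ T : ℝ in atTop, max 1 (P0 + 1) ≤ Real.log (Real.log T) :=
    tendsto_ll.eventually_ge_atTop _
  have e3 : ∀ᶠ T : ℝ in atTop, max (1 / κ0) Q0 ≤ Real.log T :=
    Real.tendsto_log_atTop.eventually_ge_atTop _
  have e4 := Real.tendsto_log_atTop.eventually ((Real.isLittleO_pow_log_id_atTop (n := 16)).bound
    (c := 1) (by norm_num))
  have e5 := (isLittleO_log_rpow_atTop (r := η / 8) (by positivity)).bound (c := 1)
    (by norm_num)
  have e6 := (isLittleO_log_rpow_atTop (r := 1 / 2) (by norm_num)).bound (c := 1)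
    (by norm_num)
  obtain ⟨T1, h1⟩ := eventually_atTop.1 (e2.and (e3.and (e4.and (e5.and
    (e6.and (eventually_gt_atTop (10 : ℝ)))))))
  refine ⟨max T1 11, lt_of_lt_of_le (by norm_num) (le_max_right _ _), fun T hT => ?_⟩
  obtain ⟨a2, a3, a4, a5, a6, a7⟩ := h1 T ((le_max_left _ _).trans hT)
  have b1 : 1 ≤ Real.log (Real.log T) := (le_max_left _ _).trans a2
  have b2 : P0 + 1 ≤ Real.log (Real.log T) := (le_max_right _ _).trans a2
  have hT0 : 0 ≤ T := by linarith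
  have hL0 : 0 ≤ Real.log T := Real.log_nonneg (by linarith)
  refine ⟨b1, ?_, ?_, ?_, ?_, (le_max_left _ _).trans a3, (le_max_right _ _).trans a3⟩
  · have c1 : Real.log (Real.log T) ≤ Real.log (Real.log T) ^ 16 :=
      le_self_pow₀ b1 (by norm_num)
    linarith
  · simp only [one_mul, id, Real.norm_of_nonneg hL0] at a4
    rw [Real.norm_of_nonneg (by positivity)] at a4
    exact a4
  · rw [Real.norm_of_nonneg hL0, Real.norm_of_nonneg (Real.rpow_nonneg hT0 _), one_mul] at a6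
    rw [Real.sqrt_eq_rpow]
    exact a6
  · rw [Real.norm_of_nonneg hL0, Real.norm_of_nonneg (Real.rpow_nonneg hT0 _), one_mul] at a5
    exact a5

theorem geo_le (n : ℕ) : ∑ k ∈ Finset.range n, (1 : ℝ) / 2 ^ k ≤ 2 := by
  have h1 : ∑ k ∈ Finset.range n, (1 : ℝ) / 2 ^ k = ∑ k ∈ Finset.range n, (1 / 2 : ℝ) ^ k :=
    Finset.sum_congr rfl fun k _ => by rw [one_div_pow]
  rw [h1, geom_sum_eq (by norm_num)]
  have h2 : 0 ≤ (1 / 2 : ℝ) ^ n := by positivity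
  have h3 : ((1 / 2 : ℝ) ^ n - 1) / (1 / 2 - 1) = 2 - 2 * (1 / 2 : ℝ) ^ n := by
    field_simp
    ring
  rw [h3]
  linarith

/-- **MELK.** -/
theorem melk (hD : DECKStatement) (hS : SML8Statement) (hG : GOODXStatement)
    (hM : MEDKStatement) (hH : HIGHKStatement) (hMer : MERKStatement) (hQ : SEQKStatement) :
    MELKStatement := by
  intro hRH a b ε η δ ha hab hε hε1 hη hη1 hδ
  obtain ⟨C1, hC1, HD⟩ := hD a ε ha hε hε1
  obtain ⟨C2, hC2, HG⟩ := hG a ε ha hε hε1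
  obtain ⟨C3, hC3, HM⟩ := hM a ε ha hε hε1
  obtain ⟨c, P0, hc, hP0, HW⟩ := hMer
  -- the parameter
  obtain ⟨μ, hμ0, hμ1, hμ2⟩ : ∃ μ : ℝ, 0 < μ ∧ μ < 1 ∧ 20 * (C1 + C2 + C3) * μ ≤ δ := by
    refine ⟨min (1 / 2) (δ / (20 * (C1 + C2 + C3))), lt_min (by norm_num) (by positivity),
      lt_of_le_of_lt (min_le_left _ _) (by norm_num), ?_⟩
    have h1 : min (1 / 2) (δ / (20 * (C1 + C2 + C3))) ≤ δ / (20 * (C1 + C2 + C3)) :=
      min_le_right _ _
    have h2 := mul_le_mul_of_nonneg_left h1 (by positivity : 0 ≤ 20 * (C1 + C2 + C3))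
    have h3 : 20 * (C1 + C2 + C3) * (δ / (20 * (C1 + C2 + C3))) = δ := by
      field_simp
    linarith
  obtain ⟨P, κ, K, hB, hk, hP00, hseq⟩ := hQ c μ P0 hc hμ0 hμ1
  obtain ⟨T1, hT1, E⟩ := ev10 (P 0) (κ 0) (QE (P 0) (κ 0) (K 0)) η hη
  obtain ⟨T2, hT2, HD⟩ := HD η hη hη1
  obtain ⟨T3, hT3, HG⟩ := HG η (κ 0) μ (K 0) hη hη1 (hk 0).2.2.1 (hk 0).2.2.2.1 hμ0 hμ1
    (hk 0).2.2.2.2.2.1
  obtain ⟨T4, hT4, HS⟩ := hS a b ε η (δ / 10) ha hab hε hε1 hη hη1 (by positivity)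
  obtain ⟨T5, hT5, HH⟩ := hH hRH a b ε η (δ / 10) ha hab hε hε1 hη hη1 (by positivity)
  obtain ⟨T6, hT6, HM⟩ := HM η hη hη1
  refine ⟨max 1 (QE (P 0) (κ 0) (K 0)), max T1 (max T2 (max T3 (max T4 (max T5 T6)))),
    le_max_left _ _, lt_of_lt_of_le hT1 (le_max_left _ _), fun T h hT hh1 hh2 => ?_⟩
  simp only [max_le_iff] at hT hh1
  obtain ⟨t1, t2, t3, t4, t5, t6⟩ := hT
  obtain ⟨hh0, hhQ⟩ := hh1
  obtain ⟨hl1, hPl, hlL, hLs, hLT, hκL, hQL⟩ := E T t1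
  obtain ⟨L, hL⟩ : ∃ L, L = Real.log T := ⟨_, rfl⟩
  obtain ⟨l, hl⟩ : ∃ l, l = Real.log L := ⟨_, rfl⟩
  rw [← hL, ← hl] at hl1 hPl hlL
  rw [← hL] at hh2 hLs hLT hκL hQL
  have hL1 : 1 ≤ L := (one_le_pow₀ hl1).trans hlL
  have hL0 : 0 < L := by linarith
  have hT0 : 1 ≤ T := by linarith
  -- the last scale
  have hex : ∃ k, l ^ 16 ≤ P k := by
    obtain ⟨k, hk'⟩ := exists_nat_ge (l ^ 16)
    exact ⟨k, hk'.trans (hk k).2.1⟩
  obtain ⟨J, hJ, hJm⟩ : ∃ J, l ^ 16 ≤ P J ∧ ∀ k < J, P k < l ^ 16 :=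
    ⟨Nat.find hex, Nat.find_spec hex, fun k hk' => not_le.1 (Nat.find_min hex hk')⟩
  have hJ0 : J ≠ 0 := by
    intro h0
    rw [h0] at hJ
    linarith
  have hmono : ∀ k, P 0 ≤ P k := by
    intro k
    induction k with
    | zero => exact le_rfl
    | succ k ih => exact ih.trans (hseq k).1
  have hWk : ∀ k, 2 ^ k / μ ≤ Wb (P k) (κ k) (K k) := fun k =>
    Wb_ge (by linarith [(hk k).1]) (hk k).2.2.1
      ((hk k).2.2.2.2.2.2.trans (HW (P k) (K k) (hB.trans (hmono k)) (hk k).2.2.2.2.2.1))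
  have hWpos : ∀ k, 0 < (2 : ℝ) ^ k / μ := fun k => by positivity
  have hW1 : ∀ k, 1 ≤ Wb (P k) (κ k) (K k) := fun k => by
    refine le_trans ?_ (hWk k)
    rw [le_div_iff₀ hμ0]
    have : (1 : ℝ) ≤ 2 ^ k := one_le_pow₀ (by norm_num)
    linarith
  have hWi : ∀ k, 1 / Wb (P k) (κ k) (K k) ≤ μ / 2 ^ k := fun k => by
    refine (one_div_le_one_div_of_le (hWpos k) (hWk k)).trans (le_of_eq ?_)
    rw [one_div_div]
  -- the sizes of the scales
  have hQk : ∀ k ≤ J, QE (P k) (κ k) (K k) ≤ L := by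
    intro k hkJ
    rcases Nat.eq_zero_or_pos k with h0 | h0
    · rw [h0]
      exact hQL
    · obtain ⟨m, rfl⟩ : ∃ m, k = m + 1 := ⟨k - 1, by omega⟩
      have h1 := (hseq m).2.1
      have h2 := hJm m (by omega)
      have h3 : P m ^ (dl m / 16) ≤ l := by
        have h4 : P m ^ (dl m / 16) ≤ (l ^ 16) ^ (dl m / 16) :=
          Real.rpow_le_rpow (by linarith [(hk m).1]) h2.le (by linarith [dl_pos m])
        have h5 : (l ^ 16) ^ (dl m / 16) = l ^ dl m := by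
          rw [← Real.rpow_natCast, ← Real.rpow_mul (by linarith)]
          congr 1
          push_cast
          ring
        have h6 : l ^ dl m ≤ l ^ (1 : ℝ) := Real.rpow_le_rpow_of_exponent_le hl1 (dl_le m)
        rw [Real.rpow_one] at h6
        linarith
      have hQ0 : 0 < QE (P (m + 1)) (κ (m + 1)) (K (m + 1)) := by
        unfold QE yb
        have := (hk (m + 1)).1
        have := Real.exp_pos (κ (m + 1) * (nb (P (m + 1)) (κ (m + 1)) (K (m + 1)) : ℕ))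
        positivity
      have h7 : Real.log (QE (P (m + 1)) (κ (m + 1)) (K (m + 1))) ≤ Real.log L := by
        rw [← hl]
        linarith
      exact (Real.log_le_log_iff hQ0 hL0).1 h7
  have hκk : ∀ k ≤ J, 1 / L ≤ κ k := by
    intro k hkJ
    rw [one_div_le hL0 (hk k).2.2.1]
    rcases Nat.eq_zero_or_pos k with h0 | h0
    · rw [h0]
      exact hκL
    · obtain ⟨m, rfl⟩ : ∃ m, k = m + 1 := ⟨k - 1, by omega⟩
      have h1 := (hseq m).2.2.2.2.2.2
      have h2 := hJm m (by omega)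
      linarith
  have hL4 : 0 ≤ L ^ 4 := by positivity
  have h2k : ∀ k : ℕ, (0 : ℝ) < 2 ^ k := fun k => by positivity
  -- DECK at every scale
  have DK : ∀ k ≤ J, ∫⁻ t : ℝ, ENNReal.ofReal (‖Dp ε η T t - Fb ε η (κ k) (K k) (P k) T t‖ ^ 2 *
        Real.exp (-(a * h / T * |t|))) ≤ ENNReal.ofReal (C1 * (2 * (μ / 2 ^ k)) * L ^ 4) := by
    intro k hkJ
    refine (HD T h (P k) (κ k) (K k) t2 hh0 (by rw [← hL]; exact hh2) (by linarith [(hk k).1])
      (by rw [← hL]; exact hκk k hkJ) (hk k).2.2.2.1 (hk k).2.2.2.2.2.1 ((hQk k hkJ).trans hLT)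
      (hW1 k)).trans (ENNReal.ofReal_le_ofReal ?_)
    rw [← hL]
    refine mul_le_mul_of_nonneg_right (mul_le_mul_of_nonneg_left ?_ hC1.le) hL4
    linarith [hWi k, (hk k).2.2.2.2.1]
  -- the classes
  let A : ℕ → Set ℝ := fun k => {t : ℝ | ∀ v < nb (P k) (κ k) (K k),
    ‖Qb (P k) (κ k) v t‖ ^ 2 ≤ yb (P k) (κ k) v ^ (-be k)}
  have hcov : (Set.univ : Set ℝ) ⊆
      ({t : ℝ | |t| ≤ T / L ^ 6} ∪
        {t : ℝ | T / L ^ 6 < |t| ∧ ∃ v < nb (P J) (κ J) (K J),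
          yb (P J) (κ J) v ^ (-(7 / 8 : ℝ)) < ‖Qb (P J) (κ J) v t‖ ^ 2}) ∪
      (A 0 ∪ ⋃ k ∈ Finset.range J, ((A k)ᶜ ∩ A (k + 1))) := by
    intro t _
    by_cases h1 : |t| ≤ T / L ^ 6
    · exact Or.inl (Or.inl h1)
    by_cases h2 : ∃ k, t ∈ A k ∧ k ≤ J
    · refine Or.inr ?_
      obtain ⟨k, ⟨hk1, hk2⟩, hk3⟩ : ∃ k, (t ∈ A k ∧ k ≤ J) ∧ ∀ m < k, ¬ (t ∈ A m ∧ m ≤ J) :=
        ⟨Nat.find h2, Nat.find_spec h2, fun m hm => Nat.find_min h2 hm⟩
      rcases Nat.eq_zero_or_pos k with h0 | h0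
      · rw [h0] at hk1
        exact Or.inl hk1
      · obtain ⟨m, rfl⟩ : ∃ m, k = m + 1 := ⟨k - 1, by omega⟩
        refine Or.inr (Set.mem_iUnion₂.2 ⟨m, Finset.mem_range.2 (by omega), ?_, hk1⟩)
        exact fun h3 => hk3 m (by omega) ⟨h3, by omega⟩
    · refine Or.inl (Or.inr ⟨not_le.1 h1, ?_⟩)
      have h3 : t ∉ A J := fun h3 => h2 ⟨J, h3, le_rfl⟩
      have h4 : ∃ v < nb (P J) (κ J) (K J), yb (P J) (κ J) v ^ (-be J) <
          ‖Qb (P J) (κ J) v t‖ ^ 2 := by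
        by_contra h5
        push Not at h5
        exact h3 h5
      obtain ⟨v, hv, h5⟩ := h4
      refine ⟨v, hv, lt_of_le_of_lt ?_ h5⟩
      refine Real.rpow_le_rpow_of_exponent_le ?_ (by linarith [be_lt J])
      exact (by linarith [(hk J).1] : (1 : ℝ) ≤ P J).trans
        (le_yb (by linarith [(hk J).1]) (hk J).2.2.1.le v)
  -- the parts
  have SA := HS T h t4 hh0 (by rw [← hL]; exact hh2)
  have HA := HH T h (P J) (κ J) (K J) t5 hh0 (by rw [← hL]; exact hh2)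
    (by rw [← hL, ← hl]; exact hJ) (by rw [← hL]; exact hQk J le_rfl)
    (by rw [← hL]; exact hκk J le_rfl) (hk J).2.2.2.1 (hk J).2.2.2.2.2.1
  have GA := HG T h (P 0) t3 (by linarith [(hk 0).1]) hhQ (by rw [← hL]; exact hh2) (hW1 0)
  rw [← hL] at SA HA GA
  have G2 : ∫⁻ t in A 0, ENNReal.ofReal (‖Dp ε η T t‖ ^ 2 * rho a b T (Real.log T ^ 2) h t) ≤
      ENNReal.ofReal (2 * (C1 * (2 * (μ / 2 ^ 0)) * L ^ 4) + 2 * (C2 * μ * L ^ 4)) := by
    refine part (a := a) (b := b) _ (by positivity) (by positivity) (DK 0 (Nat.zero_le J))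
      ((lintegral_mono_set ?_).trans GA)
    intro t ht v hv
    refine (ht v hv).trans ?_
    have h1 : yb (P 0) (κ 0) v ^ (-be 0) ≤ P 0 ^ (-be 0) := by
      refine Real.rpow_le_rpow_of_nonpos (by linarith [(hk 0).1]) ?_
        (by linarith [be_nonneg 0])
      exact le_yb (by linarith [(hk 0).1]) (hk 0).2.2.1.le v
    refine h1.trans ?_
    rw [be_zero]
    exact hP00
  have M2 : ∀ k ∈ Finset.range J, ∫⁻ t in (A k)ᶜ ∩ A (k + 1),
      ENNReal.ofReal (‖Dp ε η T t‖ ^ 2 * rho a b T (Real.log T ^ 2) h t) ≤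
      ENNReal.ofReal (2 * (C1 * (2 * (μ / 2 ^ (k + 1))) * L ^ 4) +
        2 * (C3 * (μ / 2 ^ k) * L ^ 4)) := by
    intro k hkJ
    have hkJ' : k + 1 ≤ J := Finset.mem_range.1 hkJ
    obtain ⟨s1, s2, s3, s4, s5, s6, -⟩ := hseq k
    have hMk := HM T h (P k) (κ k) (P (k + 1)) (κ (k + 1)) (be k) (be (k + 1)) (K k) (K (k + 1))
      t6 hh0 (by rw [← hL]; exact hh2) (hk k).1 (hk k).2.2.1 (hk k).2.2.2.1 (hk (k + 1)).2.2.1
      (hk (k + 1)).2.2.2.1 (hk k).2.2.2.2.2.1 (hk (k + 1)).2.2.2.2.2.1 (be_nonneg k)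
      (by linarith [be_succ k, dl_pos k]) (by linarith [be_lt (k + 1)])
      ((hQk (k + 1) hkJ').trans hLs) (hW1 (k + 1)) (by rw [be_succ]; exact s2)
      (by rw [be_succ]; exact s3) (by rw [be_succ]; exact s4) (by rw [be_succ]; exact s5)
    rw [be_succ, ← hL] at hMk
    refine part (a := a) (b := b) _ (by positivity) (by positivity) (DK (k + 1) hkJ')
      ((lintegral_mono_set ?_).trans (hMk.trans (ENNReal.ofReal_le_ofReal ?_)))
    · rintro t ⟨ht1, ht2⟩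
      refine ⟨?_, ht2⟩
      by_contra h5
      push Not at h5
      exact ht1 h5
    · exact mul_le_mul_of_nonneg_right (mul_le_mul_of_nonneg_left s6 hC3.le) hL4
  simp only [← hL] at G2 M2
  rw [← hL, ← setLIntegral_univ]
  refine (lintegral_mono_set hcov).trans ?_
  refine (lintegral_union_le _ _ _).trans ?_
  refine (add_le_add ((lintegral_union_le _ _ _).trans (add_le_add SA HA))
    ((lintegral_union_le _ _ _).trans (add_le_add G2 ((lint_biUnion _ _).trans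
      (Finset.sum_le_sum M2))))).trans ?_
  rw [← ENNReal.ofReal_sum_of_nonneg (fun k _ => by positivity),
    ← ENNReal.ofReal_add (by positivity) (by positivity),
    ← ENNReal.ofReal_add (by positivity) (Finset.sum_nonneg fun k _ => by positivity),
    ← ENNReal.ofReal_add (by positivity) (add_nonneg (by positivity)
      (Finset.sum_nonneg fun k _ => by positivity))]
  apply ENNReal.ofReal_le_ofReal
  have hsum : ∑ k ∈ Finset.range J, (2 * (C1 * (2 * (μ / 2 ^ (k + 1))) * L ^ 4) +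
      2 * (C3 * (μ / 2 ^ k) * L ^ 4)) ≤ (4 * C1 + 4 * C3) * μ * L ^ 4 := by
    have h1 : ∀ k ∈ Finset.range J, 2 * (C1 * (2 * (μ / 2 ^ (k + 1))) * L ^ 4) +
        2 * (C3 * (μ / 2 ^ k) * L ^ 4) = (2 * C1 + 2 * C3) * μ * L ^ 4 * (1 / 2 ^ k) := by
      intro k _
      rw [pow_succ]
      field_simp
    rw [Finset.sum_congr rfl h1, ← Finset.mul_sum]
    have h2 := mul_le_mul_of_nonneg_left (geo_le J)
      (by positivity : 0 ≤ (2 * C1 + 2 * C3) * μ * L ^ 4)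
    linarith
  have hfin : (4 * C1 + 2 * C2 + (4 * C1 + 4 * C3)) * μ * L ^ 4 ≤ 1 / 2 * (δ * L ^ 4) := by
    have h1 : (4 * C1 + 2 * C2 + (4 * C1 + 4 * C3)) * μ ≤ 1 / 2 * δ := by
      have h2 : 0 ≤ C1 * μ := by positivity
      have h3 : 0 ≤ C2 * μ := by positivity
      have h4 : 0 ≤ C3 * μ := by positivity
      nlinarith
    have h2 := mul_le_mul_of_nonneg_right h1 hL4
    linarith
  have h5 : 0 ≤ δ * L ^ 4 := by positivity
  have h6 : (2 : ℝ) ^ 0 = 1 := pow_zero 2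
  rw [h6]
  linarith

end Pool.Agent.Lib.MP_6bc78b_nt.GP.H27N
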